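import Pool.Agent.Helper53.CL.Defs

/-!
# CL-C01: the potential `Wt` (easy, one variable, about 150 lines)

`Wt' s = -sin s` on `[-π, π]`, `s - π` for `s > π`, `s + π` for `s < -π`; continuous, piecewise `C^1` with derivative in
`[-1, 1]`, so `1`-Lipschitz.  `HasDerivAt Wt (Wt' s) s` also at `±π` (both one sided derivatives are `0`).
`taylor`: `Wt t - Wt s - Wt' s (t - s) = ∫_s^t (Wt' r - Wt' s) dr ≤ (t - s)^2 / 2` (or: `r ↦ r^2/2 - Wt r` is convex, its
derivative is monotone).  `lower`: `s^2 ≤ 2 (|s| - π)^2 + 2 π^2`.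
-/

namespace Pool.Agent.Helper53.CL.C

open Real

theorem Wt_nonneg (s : ℝ) : 0 ≤ Wt s := by
  unfold Wt
  split_ifs
  · linarith [Real.neg_one_le_cos s]
  · positivity

theorem Wt_even (s : ℝ) : Wt (-s) = Wt s := by
  unfold Wt
  rw [abs_neg, Real.cos_neg]

theorem Wt'_odd (s : ℝ) : Wt' (-s) = -Wt' s := by
  unfold Wt'
  rw [abs_neg]
  by_cases h : |s| ≤ π
  · rw [if_pos h, if_pos h, Real.sin_neg]
  · rw [if_neg h, if_neg h]
    have hs : s ≠ 0 := by
      rintro rfl
      rw [abs_zero] at h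
      exact h Real.pi_pos.le
    rcases lt_or_gt_of_ne hs with h1 | h1
    · rw [if_pos (by linarith), if_neg (by linarith)]
      ring
    · rw [if_neg (by linarith), if_pos h1]
      ring

theorem Wt'_zero : Wt' 0 = 0 := by
  unfold Wt'
  rw [abs_zero, if_pos Real.pi_pos.le, Real.sin_zero, neg_zero]

private theorem Wt_of_ge {s : ℝ} (h : π ≤ s) : Wt s = (s - π) ^ 2 / 2 := by
  unfold Wt
  have h0 : |s| = s := abs_of_nonneg (Real.pi_pos.le.trans h)
  rw [h0]
  rcases h.eq_or_lt with h1 | h1
  · rw [if_pos h1.ge, ← h1, Real.cos_pi]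
    norm_num
  · rw [if_neg (not_le.2 h1)]

private theorem Wt'_of_ge {s : ℝ} (h : π ≤ s) : Wt' s = s - π := by
  unfold Wt'
  have h0 : |s| = s := abs_of_nonneg (Real.pi_pos.le.trans h)
  rw [h0]
  rcases h.eq_or_lt with h1 | h1
  · rw [if_pos h1.ge, ← h1, Real.sin_pi]
    norm_num
  · rw [if_neg (not_le.2 h1), if_pos (Real.pi_pos.trans h1)]

theorem Wt_eq {s : ℝ} (h : |s| ≤ π) : Wt s = 1 + Real.cos s := if_pos h

private theorem Wt'_eq {s : ℝ} (h : |s| ≤ π) : Wt' s = -Real.sin s := if_pos h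

private theorem hasDerivAt_aux {s : ℝ} (hs : 0 ≤ s) : HasDerivAt Wt (Wt' s) s := by
  have hpi := Real.pi_pos
  have hquad : ∀ x : ℝ, HasDerivAt (fun s : ℝ => (s - π) ^ 2 / 2) (x - π) x := by
    intro x
    have h1 := (((hasDerivAt_id x).sub_const π).pow 2).div_const 2
    refine h1.congr_deriv ?_
    simp
  rcases lt_trichotomy s π with h | h | h
  · rw [Wt'_eq (by rw [abs_of_nonneg hs]; exact h.le)]
    have h1 : HasDerivAt (fun s => 1 + Real.cos s) (-Real.sin s) s :=
      (Real.hasDerivAt_cos s).const_add 1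
    refine h1.congr_of_eventuallyEq ?_
    filter_upwards [Ioo_mem_nhds (by linarith : -π < s) h] with x hx
    exact Wt_eq (abs_le.2 ⟨hx.1.le, hx.2.le⟩)
  · subst h
    rw [Wt'_of_ge le_rfl]
    have h1 : HasDerivWithinAt Wt (π - π) (Set.Ici π) π := by
      refine (hquad π).hasDerivWithinAt.congr (fun x hx => Wt_of_ge hx) (Wt_of_ge le_rfl)
    have h2 : HasDerivWithinAt Wt (π - π) (Set.Iic π) π := by
      have h3 : HasDerivAt (fun s => 1 + Real.cos s) (-Real.sin π) π :=
        (Real.hasDerivAt_cos π).const_add 1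
      rw [Real.sin_pi, neg_zero] at h3
      rw [sub_self]
      refine h3.hasDerivWithinAt.congr_of_eventuallyEq ?_ (Wt_eq (abs_of_pos hpi).le)
      have h4 : Set.Ioi (-π) ∈ nhdsWithin π (Set.Iic π) :=
        mem_nhdsWithin_of_mem_nhds (Ioi_mem_nhds (by linarith))
      filter_upwards [h4, self_mem_nhdsWithin] with x hx hx'
      exact Wt_eq (abs_le.2 ⟨le_of_lt hx, hx'⟩)
    have h5 := h2.union h1
    rw [Set.Iic_union_Ici] at h5
    exact h5.hasDerivAt Filter.univ_mem
  · rw [Wt'_of_ge h.le]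
    refine (hquad s).congr_of_eventuallyEq ?_
    filter_upwards [Ioi_mem_nhds h] with x hx
    exact Wt_of_ge (le_of_lt hx)

theorem hasDerivAt_Wt (s : ℝ) : HasDerivAt Wt (Wt' s) s := by
  rcases le_total 0 s with h | h
  · exact hasDerivAt_aux h
  · have h1 : HasDerivAt Wt (Wt' (-s)) (-s) := hasDerivAt_aux (by linarith)
    have h2 := HasDerivAt.comp s h1 (hasDerivAt_neg s)
    have h3 : Wt ∘ (fun x => -x) = Wt := by
      funext x
      exact Wt_even x
    have h4 : Wt' (-s) * -1 = Wt' s := by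
      rw [Wt'_odd]
      ring
    rw [h4] at h2
    rw [show (Wt ∘ Neg.neg) = Wt from h3] at h2
    exact h2

/-- The clamp. -/
private noncomputable def cl (s : ℝ) : ℝ := max (-π) (min s π)

private theorem Wt'_cl (s : ℝ) : Wt' s = -Real.sin (cl s) + (s - cl s) := by
  have hpi := Real.pi_pos
  unfold cl
  rcases le_total s (-π) with h | h
  · have h1 : Wt' s = -Wt' (-s) := by
      rw [Wt'_odd, neg_neg]
    rw [h1, Wt'_of_ge (by linarith), min_eq_left (by linarith), max_eq_left h, Real.sin_neg, Real.sin_pi]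
    ring
  · rcases le_total s π with h' | h'
    · rw [min_eq_left h', max_eq_right h, Wt'_eq (abs_le.2 ⟨h, h'⟩)]
      ring
    · rw [min_eq_right h', max_eq_right (by linarith), Wt'_of_ge h', Real.sin_pi]
      ring

private theorem abs_sin_sub_le (a b : ℝ) : |Real.sin a - Real.sin b| ≤ |a - b| := by
  have h := Convex.norm_image_sub_le_of_norm_deriv_le (f := Real.sin) (s := Set.univ) (C := 1)
    (fun z _ => Real.differentiable_sin z) (fun z _ => by
      rw [Real.deriv_sin, Real.norm_eq_abs]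
      exact Real.abs_cos_le_one z) convex_univ (Set.mem_univ b) (Set.mem_univ a)
  simpa [Real.norm_eq_abs] using h

private theorem lip_aux {s t : ℝ} (h : s ≤ t) : |Wt' t - Wt' s| ≤ t - s := by
  rw [Wt'_cl, Wt'_cl]
  have h1 : cl s ≤ cl t := max_le_max le_rfl (min_le_min h le_rfl)
  have h2 : cl t - cl s ≤ t - s := by
    have hpi := Real.pi_pos
    unfold cl
    rcases le_total s (-π) with hs | hs <;> rcases le_total s π with hs' | hs' <;>
      rcases le_total t (-π) with ht | ht <;> rcases le_total t π with ht' | ht' <;>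
      simp only [min_eq_left, min_eq_right, max_eq_left, max_eq_right, hs, hs', ht, ht'] <;>
      first | linarith | (rw [max_eq_right (by linarith)]; linarith)
  have h3 := abs_sin_sub_le (cl t) (cl s)
  rw [abs_of_nonneg (sub_nonneg.2 h1)] at h3
  have h4 := abs_le.1 h3
  rw [abs_le]
  constructor <;> linarith [h4.1, h4.2]

theorem lip_Wt' : LipschitzWith 1 Wt' := by
  refine LipschitzWith.of_dist_le_mul fun s t => ?_
  rw [NNReal.coe_one, one_mul, Real.dist_eq, Real.dist_eq]
  rcases le_total s t with h | h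
  · rw [abs_sub_comm, abs_sub_comm s t, abs_of_nonneg (sub_nonneg.2 h)]
    exact lip_aux h
  · rw [abs_of_nonneg (sub_nonneg.2 h)]
    exact lip_aux h

theorem abs_Wt'_le (s : ℝ) : |Wt' s| ≤ |s| := by
  have h := lip_Wt'.dist_le_mul s 0
  rw [NNReal.coe_one, one_mul, Real.dist_eq, Real.dist_eq, Wt'_zero, sub_zero, sub_zero] at h
  exact h

theorem Wt_taylor (s t : ℝ) : Wt t ≤ Wt s + Wt' s * (t - s) + (t - s) ^ 2 / 2 := by
  set g : ℝ → ℝ := fun r => Wt s + Wt' s * (r - s) + (r - s) ^ 2 / 2 - Wt r with hg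
  have hd : ∀ r, HasDerivAt g (Wt' s + (r - s) - Wt' r) r := by
    intro r
    have h1 : HasDerivAt (fun r : ℝ => r - s) 1 r := (hasDerivAt_id r).sub_const s
    have h2 := (((h1.const_mul (Wt' s)).const_add (Wt s)).add ((h1.pow 2).div_const 2)).sub
      (hasDerivAt_Wt r)
    refine h2.congr_deriv ?_
    simp
  have hgs : g s = 0 := by
    simp [hg]
  have hcont : Continuous g := by
    rw [continuous_iff_continuousAt]
    exact fun r => (hd r).continuousAt
  have hkey : 0 ≤ g t := by
    rcases le_total s t with h | h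
    · have hm : MonotoneOn g (Set.Ici s) := by
        refine monotoneOn_of_deriv_nonneg (convex_Ici s) hcont.continuousOn
          (fun r _ => (hd r).differentiableAt.differentiableWithinAt) fun r hr => ?_
        rw [interior_Ici] at hr
        rw [(hd r).deriv]
        have h3 := (abs_le.1 (lip_aux (le_of_lt hr))).2
        linarith
      have := hm (Set.mem_Ici.2 le_rfl) (Set.mem_Ici.2 h) h
      rwa [hgs] at this
    · have hm : AntitoneOn g (Set.Iic s) := by
        refine antitoneOn_of_deriv_nonpos (convex_Iic s) hcont.continuousOn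
          (fun r _ => (hd r).differentiableAt.differentiableWithinAt) fun r hr => ?_
        rw [interior_Iic] at hr
        rw [(hd r).deriv]
        have h3 := (abs_le.1 (lip_aux (le_of_lt hr))).2
        linarith
      have := hm (Set.mem_Iic.2 h) (Set.mem_Iic.2 le_rfl) h
      rwa [hgs] at this
  have h5 : g t = Wt s + Wt' s * (t - s) + (t - s) ^ 2 / 2 - Wt t := rfl
  linarith

theorem abs_Wt_sub_le (s t : ℝ) : |Wt s - Wt t| ≤ |s - t| * (|s| + |t|) := by
  have h := Convex.norm_image_sub_le_of_norm_hasDerivWithin_le (f := Wt) (f' := Wt')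
    (s := Set.Icc (-(|s| + |t|)) (|s| + |t|)) (C := |s| + |t|) (x := t) (y := s)
    (fun z _ => (hasDerivAt_Wt z).hasDerivWithinAt) (fun z hz => by
      rw [Real.norm_eq_abs]
      exact (abs_Wt'_le z).trans (abs_le.2 ⟨hz.1, hz.2⟩)) (convex_Icc _ _)
    (by
      have h1 := neg_abs_le t
      have h2 := le_abs_self t
      have h3 := abs_nonneg s
      constructor <;> linarith)
    (by
      have h1 := neg_abs_le s
      have h2 := le_abs_self s
      have h3 := abs_nonneg t
      constructor <;> linarith)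
  rw [Real.norm_eq_abs, Real.norm_eq_abs] at h
  linarith

theorem Wt_upper (s : ℝ) : Wt s ≤ 2 + s ^ 2 / 2 := by
  unfold Wt
  split_ifs with h
  · linarith [Real.cos_le_one s, sq_nonneg s]
  · have hpi := Real.pi_pos
    have h1 : (|s| - π) ^ 2 ≤ |s| ^ 2 := pow_le_pow_left₀ (by linarith) (by linarith) 2
    rw [sq_abs] at h1
    linarith

theorem Wt_lower (s : ℝ) : s ^ 2 / 4 - π ^ 2 / 2 ≤ Wt s := by
  unfold Wt
  split_ifs with h
  · have h1 : |s| ^ 2 ≤ π ^ 2 := pow_le_pow_left₀ (abs_nonneg s) h 2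
    rw [sq_abs] at h1
    linarith [Real.neg_one_le_cos s, sq_nonneg π]
  · have h1 := sq_nonneg (|s| - 2 * π)
    have h2 := sq_abs s
    nlinarith

theorem continuous_Wt : Continuous Wt := by
  rw [continuous_iff_continuousAt]
  exact fun s => (hasDerivAt_Wt s).continuousAt

/-- `Wt' s` has the sign of `s` outside the interval `[-π, π]`. -/
theorem Wt'_sign {s : ℝ} (h : π < |s|) : 0 < s * Wt' s := by
  have hpi := Real.pi_pos
  unfold Wt'
  rw [if_neg (not_le.2 h)]
  split_ifs with h1
  · rw [abs_of_pos h1] at h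
    exact mul_pos h1 (by linarith)
  · have h2 : s ≤ 0 := not_lt.1 h1
    rw [abs_of_nonpos h2] at h
    exact mul_pos_of_neg_of_neg (by linarith) (by linarith)

theorem contDiff_Wt : ContDiff ℝ 1 Wt := by
  rw [contDiff_one_iff_deriv]
  refine ⟨fun s => (hasDerivAt_Wt s).differentiableAt, ?_⟩
  have h : deriv Wt = Wt' := funext fun s => (hasDerivAt_Wt s).deriv
  rw [h]
  exact lip_Wt'.continuous

end Pool.Agent.Helper53.CL.C
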