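import Pool.Agent.Helper53.CL.C.C01

/-!
# CL-C02: the potential energy and the energy on pairs (about 200 lines)

`integrable_Wt`: `|w Wt(u)| ≤ C (2 + u^2/2)`, `A` finite, `u ∈ L^2`; measurability: `w` measurable, `Wt` continuous.
`pot_lip`: `|Wt s - Wt t| ≤ |s - t| (|s| + |t|)` and Cauchy-Schwarz.
`continuous_en`: from `pot_lip` and the continuity of the norm.  `en_neg`: `Wt` is even.
`en_bound`: `en ε w U ≤ c`, so `‖U.snd‖^2 ≤ 2 c / ε` and `c_w ∫ Wt(u) ≤ ε c`, `‖u‖^2 = ∫ u^2 ≤ 4 ∫ Wt(u) + 2 π^2 A(Ω)`, and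
`‖U‖^2 = ‖U.fst‖^2 + ‖U.snd‖^2`.  `en_mono`: pointwise.
-/

namespace Pool.Agent.Helper53.CL.C

open MeasureTheory Filter Topology

variable {Ω : Type*} [MeasurableSpace Ω] {A : Measure Ω} [IsFiniteMeasure A]

theorem c02_sq (u : Lp ℝ 2 A) : Integrable (fun x => u x ^ 2) A := (Lp.memLp u).integrable_sq

theorem integrable_bWt {b : Ω → ℝ} (hb : Measurable b) {K : ℝ} (hK : ∀ x, |b x| ≤ K) (u : Lp ℝ 2 A) :
    Integrable (fun x => b x * Wt (u x)) A := by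
  have h1 : Integrable (fun x => K * (2 + u x ^ 2 / 2)) A :=
    ((integrable_const 2).add ((c02_sq u).div_const 2)).const_mul K
  refine h1.mono (hb.aestronglyMeasurable.mul (continuous_Wt.comp_aestronglyMeasurable (Lp.aestronglyMeasurable u)))
    (Eventually.of_forall fun x => ?_)
  rw [norm_mul, Real.norm_eq_abs, Real.norm_eq_abs, Real.norm_eq_abs, abs_of_nonneg (Wt_nonneg _)]
  refine le_trans ?_ (le_abs_self _)
  have hK0 : 0 ≤ K := (abs_nonneg _).trans (hK x)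
  exact mul_le_mul (hK x) (Wt_upper _) (Wt_nonneg _) hK0

theorem c02_bd {w : Ω → ℝ} (hw : IsWeight w) : ∃ c C : ℝ, 0 < c ∧ (∀ x, c ≤ w x) ∧ ∀ x, |w x| ≤ C := by
  obtain ⟨_, c, C, hc, h⟩ := hw
  exact ⟨c, C, hc, fun x => (h x).1, fun x => abs_le.2 ⟨by linarith [(h x).1, (h x).2], (h x).2⟩⟩

theorem integrable_Wt {w : Ω → ℝ} (hw : IsWeight w) (u : Lp ℝ 2 A) : Integrable (fun x => w x * Wt (u x)) A := by
  obtain ⟨c, C, hc0, hc, hC⟩ := c02_bd hw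
  exact integrable_bWt hw.1 hC u

theorem integrable_mul3 {b : Ω → ℝ} (hb : Measurable b) {K : ℝ} (hK : ∀ x, |b x| ≤ K) (u v : Lp ℝ 2 A) :
    Integrable (fun x => b x * u x * v x) A := by
  have h1 : Integrable (fun x => K * (u x ^ 2 + v x ^ 2)) A := ((c02_sq u).add (c02_sq v)).const_mul K
  refine h1.mono ((hb.aestronglyMeasurable.mul (Lp.aestronglyMeasurable u)).mul (Lp.aestronglyMeasurable v))
    (Eventually.of_forall fun x => ?_)
  rw [norm_mul, norm_mul, Real.norm_eq_abs, Real.norm_eq_abs, Real.norm_eq_abs, Real.norm_eq_abs]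
  refine le_trans ?_ (le_abs_self _)
  have hK0 : 0 ≤ K := (abs_nonneg _).trans (hK x)
  rw [mul_assoc]
  refine mul_le_mul (hK x) ?_ (by positivity) hK0
  have := sq_nonneg (|u x| - |v x|)
  rw [← sq_abs (u x), ← sq_abs (v x)]
  nlinarith [abs_nonneg (u x), abs_nonneg (v x), sq_nonneg (|u x|), sq_nonneg (|v x|)]

theorem c02_norm_sq (u : Lp ℝ 2 A) : ‖u‖ ^ 2 = ∫ x, u x ^ 2 ∂A := by
  rw [← real_inner_self_eq_norm_sq, L2.inner_def]
  congr 1
  funext x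
  rw [RCLike.inner_apply, conj_trivial, sq]

/-- the absolute value of an element of `L²` -/
noncomputable def c02_abs (u : Lp ℝ 2 A) : Lp ℝ 2 A := (Lp.memLp u).norm.toLp

theorem c02_abs_ae (u : Lp ℝ 2 A) : (c02_abs u : Ω → ℝ) =ᵐ[A] fun x => |u x| := MemLp.coeFn_toLp (Lp.memLp u).norm

theorem c02_abs_norm (u : Lp ℝ 2 A) : ‖c02_abs u‖ = ‖u‖ := by
  apply le_antisymm
  · apply Lp.norm_le_norm_of_ae_le
    filter_upwards [c02_abs_ae u] with x hx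
    rw [hx, Real.norm_eq_abs, abs_abs, Real.norm_eq_abs]
  · apply Lp.norm_le_norm_of_ae_le
    filter_upwards [c02_abs_ae u] with x hx
    rw [hx, Real.norm_eq_abs, Real.norm_eq_abs, abs_abs]

theorem c02_cs (u v : Lp ℝ 2 A) : ∫ x, |u x| * |v x| ∂A ≤ ‖u‖ * ‖v‖ := by
  have h1 := real_inner_le_norm (c02_abs u) (c02_abs v)
  rw [c02_abs_norm, c02_abs_norm, L2.inner_def] at h1
  refine le_trans (le_of_eq ?_) h1
  apply integral_congr_ae
  filter_upwards [c02_abs_ae u, c02_abs_ae v] with x h2 h3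
  rw [h2, h3, RCLike.inner_apply, conj_trivial, mul_comm]

theorem c02_int (u v : Lp ℝ 2 A) : Integrable (fun x => |u x| * |v x|) A := by
  refine (L2.integrable_inner (𝕜 := ℝ) (c02_abs v) (c02_abs u)).congr ?_
  filter_upwards [c02_abs_ae u, c02_abs_ae v] with x h2 h3
  rw [h2, h3, RCLike.inner_apply, conj_trivial]

theorem pot_lip {b : Ω → ℝ} (hb : Measurable b) {K : ℝ} (hK : ∀ x, |b x| ≤ K) (u v : Lp ℝ 2 A) :
    |∫ x, b x * Wt (u x) ∂A - ∫ x, b x * Wt (v x) ∂A| ≤ K * (‖u - v‖ * (‖u‖ + ‖v‖)) := by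
  rw [← integral_sub (integrable_bWt hb hK u) (integrable_bWt hb hK v)]
  have hint : Integrable (fun x => K * (|(u - v) x| * |u x| + |(u - v) x| * |v x|)) A :=
    ((c02_int (u - v) u).add (c02_int (u - v) v)).const_mul K
  have h1 : |∫ x, (b x * Wt (u x) - b x * Wt (v x)) ∂A| ≤
      ∫ x, K * (|(u - v) x| * |u x| + |(u - v) x| * |v x|) ∂A := by
    rw [← Real.norm_eq_abs]
    refine norm_integral_le_of_norm_le hint ?_
    filter_upwards [Lp.coeFn_sub u v] with x hx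
    rw [hx, Pi.sub_apply, ← mul_sub, norm_mul, Real.norm_eq_abs, Real.norm_eq_abs, ← mul_add]
    have hK0 : 0 ≤ K := (abs_nonneg _).trans (hK x)
    exact mul_le_mul (hK x) (abs_Wt_sub_le _ _) (abs_nonneg _) hK0
  refine h1.trans ?_
  rw [integral_const_mul, integral_add (c02_int (u - v) u) (c02_int (u - v) v)]
  rcases isEmpty_or_nonempty Ω with hE | ⟨⟨x0⟩⟩
  · have h2 : ∀ f : Ω → ℝ, ∫ x, f x ∂A = 0 := by
      intro f
      have : A = 0 := Measure.eq_zero_of_isEmpty A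
      rw [this, integral_zero_measure]
    have h3 : ∀ f : Lp ℝ 2 A, ‖f‖ ^ 2 = 0 := fun f => by rw [c02_norm_sq, h2]
    have h4 : ∀ f : Lp ℝ 2 A, ‖f‖ = 0 := fun f => pow_eq_zero_iff (two_ne_zero) |>.1 (h3 f)
    rw [h2, h2, h4, h4, h4]
    simp
  · have hK0 : 0 ≤ K := (abs_nonneg _).trans (hK x0)
    apply mul_le_mul_of_nonneg_left _ hK0
    rw [mul_add]
    exact add_le_add (c02_cs _ _) (c02_cs _ _)

theorem continuous_pot {b : Ω → ℝ} (hb : Measurable b) {K : ℝ} (hK : ∀ x, |b x| ≤ K) :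
    Continuous fun u : Lp ℝ 2 A => ∫ x, b x * Wt (u x) ∂A := by
  rw [continuous_iff_continuousAt]
  intro u
  rw [ContinuousAt, tendsto_iff_dist_tendsto_zero]
  have h1 : Tendsto (fun v : Lp ℝ 2 A => K * (‖v - u‖ * (‖v‖ + ‖u‖))) (𝓝 u) (𝓝 (K * (‖u - u‖ * (‖u‖ + ‖u‖)))) := by
    have : Continuous (fun v : Lp ℝ 2 A => K * (‖v - u‖ * (‖v‖ + ‖u‖))) := by fun_prop
    exact this.tendsto u
  rw [sub_self, norm_zero, zero_mul, mul_zero] at h1
  refine squeeze_zero (fun _ => dist_nonneg) (fun v => ?_) h1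
  rw [Real.dist_eq]
  exact pot_lip hb hK v u

theorem continuous_en {ε : ℝ} {w : Ω → ℝ} (hw : IsWeight w) : Continuous (en (A := A) ε w) := by
  obtain ⟨c, C, hc0, hc, hC⟩ := c02_bd hw
  have h1 := continuous_pot (A := A) hw.1 hC
  have h2 : Continuous fun U : JetSp A => U.fst := by fun_prop
  have h3 : Continuous fun U : JetSp A => U.snd := by fun_prop
  have h4 := h1.comp h2
  unfold en
  have h5 : Continuous fun U : JetSp A => ‖U.snd‖ := h3.norm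
  exact (continuous_const.mul (h5.pow 2)).add (continuous_const.mul h4)

theorem c02_pot_nonneg {w : Ω → ℝ} (hw : IsWeight w) (u : Lp ℝ 2 A) : 0 ≤ ∫ x, w x * Wt (u x) ∂A := by
  obtain ⟨c, C, hc0, hc, hC⟩ := c02_bd hw
  exact integral_nonneg fun x => mul_nonneg (hc0.le.trans (hc x)) (Wt_nonneg _)

theorem en_nonneg {ε : ℝ} (hε : 0 < ε) {w : Ω → ℝ} (hw : IsWeight w) (U : JetSp A) : 0 ≤ en ε w U := by
  unfold en
  have := c02_pot_nonneg hw U.fst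
  positivity

theorem en_neg {ε : ℝ} {w : Ω → ℝ} (U : JetSp A) : en ε w (-U) = en ε w U := by
  unfold en
  have h1 : (-U).snd = -U.snd := rfl
  have h2 : (-U).fst = -U.fst := rfl
  rw [h1, norm_neg, h2]
  congr 2
  apply integral_congr_ae
  filter_upwards [Lp.coeFn_neg U.fst] with x hx
  rw [hx, Pi.neg_apply, Wt_even]

theorem en_mono {ε : ℝ} (hε : 0 < ε) {w w' : Ω → ℝ} (hw : IsWeight w) (hw' : IsWeight w') {M : ℝ} (hM : 1 ≤ M)
    (h : ∀ x, w x ≤ M * w' x) (U : JetSp A) : en ε w U ≤ M * en ε w' U := by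
  unfold en
  have h1 : ∫ x, w x * Wt (U.fst x) ∂A ≤ M * ∫ x, w' x * Wt (U.fst x) ∂A := by
    rw [← integral_const_mul]
    refine integral_mono (integrable_Wt hw _) ((integrable_Wt hw' _).const_mul M) fun x => ?_
    show w x * Wt (U.fst x) ≤ M * (w' x * Wt (U.fst x))
    rw [← mul_assoc]
    exact mul_le_mul_of_nonneg_right (h x) (Wt_nonneg _)
  have h2 : 1 / ε * ∫ x, w x * Wt (U.fst x) ∂A ≤ 1 / ε * (M * ∫ x, w' x * Wt (U.fst x) ∂A) :=
    mul_le_mul_of_nonneg_left h1 (by positivity)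
  have h3 : ε / 2 * ‖U.snd‖ ^ 2 ≤ M * (ε / 2 * ‖U.snd‖ ^ 2) := by
    have : 0 ≤ ε / 2 * ‖U.snd‖ ^ 2 := by positivity
    nlinarith
  linarith

theorem c02_norm (U : JetSp A) : ‖U‖ ^ 2 = ‖U.fst‖ ^ 2 + ‖U.snd‖ ^ 2 := WithLp.prod_norm_sq_eq_of_L2 U

theorem en_bound {ε : ℝ} (hε : 0 < ε) {w : Ω → ℝ} (hw : IsWeight w) (c : ℝ) :
    ∃ R, ∀ U : JetSp A, en ε w U ≤ c → ‖U‖ ≤ R := by
  obtain ⟨c₀, C, hc0, hc, hC⟩ := c02_bd hw
  set m : ℝ := A.real Set.univ with hm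
  refine ⟨√(4 * (ε * c / c₀) + 2 * Real.pi ^ 2 * m + 2 * c / ε), fun U hU => ?_⟩
  apply Real.le_sqrt_of_sq_le
  rw [c02_norm]
  have hE : ε / 2 * ‖U.snd‖ ^ 2 + 1 / ε * ∫ x, w x * Wt (U.fst x) ∂A ≤ c := hU
  have hP := c02_pot_nonneg hw U.fst
  have hP' : 0 ≤ 1 / ε * ∫ x, w x * Wt (U.fst x) ∂A := by positivity
  have hS : 0 ≤ ε / 2 * ‖U.snd‖ ^ 2 := by positivity
  have h1 : ‖U.snd‖ ^ 2 ≤ 2 * c / ε := by
    rw [le_div_iff₀ hε]
    linarith
  have h2 : ∫ x, w x * Wt (U.fst x) ∂A ≤ ε * c := by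
    have : 1 / ε * ∫ x, w x * Wt (U.fst x) ∂A ≤ c := by linarith
    rw [one_div, inv_mul_le_iff₀ hε] at this
    exact this
  have hW : Integrable (fun x => Wt (U.fst x)) A := by
    have := integrable_bWt (b := fun _ => (1 : ℝ)) measurable_const (K := 1) (fun _ => by simp) U.fst
    simpa using this
  have h3 : c₀ * ∫ x, Wt (U.fst x) ∂A ≤ ε * c := by
    refine le_trans ?_ h2
    rw [← integral_const_mul]
    exact integral_mono (hW.const_mul c₀) (integrable_Wt hw _) fun x =>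
      mul_le_mul_of_nonneg_right (hc x) (Wt_nonneg _)
  have h4 : ∫ x, Wt (U.fst x) ∂A ≤ ε * c / c₀ := by
    rw [le_div_iff₀ hc0]
    linarith
  have h5 : ‖U.fst‖ ^ 2 ≤ 4 * ∫ x, Wt (U.fst x) ∂A + 2 * Real.pi ^ 2 * m := by
    rw [c02_norm_sq]
    have h6 : ∫ x, U.fst x ^ 2 ∂A ≤ ∫ x, (4 * Wt (U.fst x) + 2 * Real.pi ^ 2) ∂A := by
      refine integral_mono (c02_sq _) ((hW.const_mul 4).add (integrable_const _)) fun x => ?_
      have := Wt_lower (U.fst x)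
      show U.fst x ^ 2 ≤ 4 * Wt (U.fst x) + 2 * Real.pi ^ 2
      linarith
    rw [integral_add (hW.const_mul 4) (integrable_const _), integral_const_mul, integral_const, smul_eq_mul] at h6
    linarith
  linarith

omit [IsFiniteMeasure A] in
theorem norm_fst_le (U : JetSp A) : ‖U.fst‖ ≤ ‖U‖ := by
  have h : ‖U‖ ^ 2 = ‖U.fst‖ ^ 2 + ‖U.snd‖ ^ 2 := WithLp.prod_norm_sq_eq_of_L2 U
  have h1 : ‖U.fst‖ ^ 2 ≤ ‖U‖ ^ 2 := by
    have := sq_nonneg ‖U.snd‖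
    linarith
  exact (sq_le_sq₀ (norm_nonneg _) (norm_nonneg _)).1 h1

omit [IsFiniteMeasure A] in
theorem norm_snd_le (U : JetSp A) : ‖U.snd‖ ≤ ‖U‖ := by
  have h : ‖U‖ ^ 2 = ‖U.fst‖ ^ 2 + ‖U.snd‖ ^ 2 := WithLp.prod_norm_sq_eq_of_L2 U
  have h1 : ‖U.snd‖ ^ 2 ≤ ‖U‖ ^ 2 := by
    have := sq_nonneg ‖U.fst‖
    linarith
  exact (sq_le_sq₀ (norm_nonneg _) (norm_nonneg _)).1 h1

end Pool.Agent.Helper53.CL.C
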