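import Pool.Agent.Helper53.CL.C.C02

/-!
# CL-C03: the map `F` (about 250 lines)

On the Hilbert space `H` (closed subspace, `IsESpace.closed`, complete) the bilinear form
`B(U, Z) = ε^2 <U.snd, Z.snd> + ∫ w U.fst Z.fst` is bounded and coercive, `B(U, U) ≥ min(ε^2, c_w) ‖U‖^2`
(`‖U‖^2 = ‖U.fst‖^2 + ‖U.snd‖^2`).  For `u ∈ L^2` the functional `Z ↦ ∫ w (u - Wt'(u)) Z.fst` is bounded (`|u - Wt' u| ≤ 2 |u|`);
Lax-Milgram (`IsCoercive.continuousLinearEquivOfBilin`) or Riesz for the inner product `B` gives `F u`.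
Uniqueness: the difference `D` of two solutions has `B(D, D) = 0`.
Lipschitz: `B(F u - F v, F u - F v) ≤ C_w 2 ‖u - v‖ ‖F u - F v‖` as `s ↦ s - Wt' s` is `2`-Lipschitz.
Odd: `-F u` solves the equation for `-u` (`Wt'` is odd), uniqueness.
`isWeak_iff`: definition.
-/

namespace Pool.Agent.Helper53.CL.C

open MeasureTheory Filter Topology

variable {Ω : Type*} [MeasurableSpace Ω] {A : Measure Ω}

/-- `ψ` is the value of the map `F` at `u`. -/
def IsF (H : Submodule ℝ (JetSp A)) (ε : ℝ) (w : Ω → ℝ) (u : Lp ℝ 2 A) (ψ : JetSp A) : Prop :=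
  ψ ∈ H ∧ ∀ Z ∈ H, ε ^ 2 * inner ℝ ψ.snd Z.snd + ∫ x, w x * ψ.fst x * Z.fst x ∂A =
    ∫ x, w x * (u x - Wt' (u x)) * Z.fst x ∂A

theorem c03_mem {b : Ω → ℝ} (hb : Measurable b) {K : ℝ} (hK : ∀ x, |b x| ≤ K) {f : Ω → ℝ} (hf : MemLp f 2 A) :
    MemLp (fun x => b x * f x) 2 A := by
  refine MemLp.of_le_mul (c := K) hf (hb.aestronglyMeasurable.mul hf.1) (Eventually.of_forall fun x => ?_)
  rw [norm_mul, Real.norm_eq_abs]
  exact mul_le_mul_of_nonneg_right (hK x) (norm_nonneg _)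

theorem c03_memW {f : Ω → ℝ} (hf : MemLp f 2 A) : MemLp (fun x => Wt' (f x)) 2 A := by
  refine MemLp.of_le_mul (c := 1) hf (lip_Wt'.continuous.comp_aestronglyMeasurable hf.1)
    (Eventually.of_forall fun x => ?_)
  rw [one_mul, Real.norm_eq_abs, Real.norm_eq_abs]
  exact abs_Wt'_le _

/-- Multiplication by a bounded measurable function. -/
noncomputable def c03_mul {b : Ω → ℝ} (hb : Measurable b) {K : ℝ} (hK : ∀ x, |b x| ≤ K) :
    Lp ℝ 2 A →L[ℝ] Lp ℝ 2 A :=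
  LinearMap.mkContinuous
    { toFun := fun u => (c03_mem hb hK (Lp.memLp u)).toLp
      map_add' := fun u v => by
        apply Lp.ext
        filter_upwards [MemLp.coeFn_toLp (c03_mem hb hK (Lp.memLp (u + v))), Lp.coeFn_add u v,
          MemLp.coeFn_toLp (c03_mem hb hK (Lp.memLp u)), MemLp.coeFn_toLp (c03_mem hb hK (Lp.memLp v)),
          Lp.coeFn_add (c03_mem hb hK (Lp.memLp u)).toLp (c03_mem hb hK (Lp.memLp v)).toLp] with x h1 h2 h3 h4 h5
        rw [h1, h5, Pi.add_apply, h3, h4, h2, Pi.add_apply]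
        ring
      map_smul' := fun r u => by
        apply Lp.ext
        filter_upwards [MemLp.coeFn_toLp (c03_mem hb hK (Lp.memLp (r • u))), Lp.coeFn_smul r u,
          MemLp.coeFn_toLp (c03_mem hb hK (Lp.memLp u)),
          Lp.coeFn_smul r (c03_mem hb hK (Lp.memLp u)).toLp] with x h1 h2 h3 h5
        rw [h1, RingHom.id_apply, h5, Pi.smul_apply, h3, h2, Pi.smul_apply, smul_eq_mul, smul_eq_mul]
        ring } K (fun u => by
        apply Lp.norm_le_mul_norm_of_ae_le_mul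
        filter_upwards [MemLp.coeFn_toLp (c03_mem hb hK (Lp.memLp u))] with x h1
        change ‖((c03_mem hb hK (Lp.memLp u)).toLp : Ω → ℝ) x‖ ≤ _
        rw [h1, norm_mul, Real.norm_eq_abs]
        exact mul_le_mul_of_nonneg_right (hK x) (norm_nonneg _))

theorem c03_mul_ae {b : Ω → ℝ} (hb : Measurable b) {K : ℝ} (hK : ∀ x, |b x| ≤ K) (u : Lp ℝ 2 A) :
    (c03_mul hb hK u : Ω → ℝ) =ᵐ[A] fun x => b x * u x :=
  MemLp.coeFn_toLp (c03_mem hb hK (Lp.memLp u))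

theorem c03_inner {b : Ω → ℝ} (hb : Measurable b) {K : ℝ} (hK : ∀ x, |b x| ≤ K) (u v : Lp ℝ 2 A) :
    inner ℝ (c03_mul hb hK u) v = ∫ x, b x * u x * v x ∂A := by
  rw [L2.inner_def]
  apply integral_congr_ae
  filter_upwards [c03_mul_ae hb hK u] with x hx
  rw [hx, RCLike.inner_apply]
  simp [mul_comm]

/-- The element `u - Wt' u`. -/
noncomputable def c03_g (u : Lp ℝ 2 A) : Lp ℝ 2 A := ((Lp.memLp u).sub (c03_memW (Lp.memLp u))).toLp

theorem c03_g_ae (u : Lp ℝ 2 A) : (c03_g u : Ω → ℝ) =ᵐ[A] fun x => u x - Wt' (u x) :=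
  MemLp.coeFn_toLp ((Lp.memLp u).sub (c03_memW (Lp.memLp u)))

theorem c03_g_lip : LipschitzWith 2 (c03_g (A := A)) := by
  apply LipschitzWith.of_dist_le_mul
  intro u v
  rw [dist_eq_norm, dist_eq_norm]
  apply Lp.norm_le_mul_norm_of_ae_le_mul
  filter_upwards [c03_g_ae u, c03_g_ae v, Lp.coeFn_sub (c03_g u) (c03_g v), Lp.coeFn_sub u v] with x h1 h2 h3 h4
  rw [h3, h4, Pi.sub_apply, Pi.sub_apply, h1, h2]
  have h5 : |Wt' (u x) - Wt' (v x)| ≤ |u x - v x| := by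
    have := lip_Wt'.dist_le_mul (u x) (v x)
    simpa [Real.dist_eq] using this
  have h6 : (u x - Wt' (u x)) - (v x - Wt' (v x)) = (u x - v x) - (Wt' (u x) - Wt' (v x)) := by ring
  rw [h6, Real.norm_eq_abs, Real.norm_eq_abs]
  have h7 := abs_sub (u x - v x) (Wt' (u x) - Wt' (v x))
  have h8 : ((2 : NNReal) : ℝ) = 2 := rfl
  rw [h8]
  linarith

theorem c03_g_neg (u : Lp ℝ 2 A) : c03_g (-u) = -c03_g u := by
  apply Lp.ext
  filter_upwards [c03_g_ae u, c03_g_ae (-u), Lp.coeFn_neg u, Lp.coeFn_neg (c03_g u)] with x h1 h2 h3 h4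
  rw [h2, h4, Pi.neg_apply, h1, h3, Pi.neg_apply, Wt'_odd]
  ring

theorem c03_bd {w : Ω → ℝ} (hw : IsWeight w) : ∃ c C : ℝ, 0 < c ∧ (∀ x, c ≤ w x) ∧ ∀ x, |w x| ≤ C := by
  obtain ⟨_, c, C, hc, h⟩ := hw
  exact ⟨c, C, hc, fun x => (h x).1, fun x => abs_le.2 ⟨by linarith [(h x).1, (h x).2], (h x).2⟩⟩

theorem c03_lower {w : Ω → ℝ} (hw : Measurable w) {c C : ℝ} (hc : ∀ x, c ≤ w x) (hC : ∀ x, |w x| ≤ C)
    (u : Lp ℝ 2 A) : c * ‖u‖ ^ 2 ≤ inner ℝ (c03_mul hw hC u) u := by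
  rw [← real_inner_self_eq_norm_sq, L2.inner_def, L2.inner_def, ← integral_const_mul]
  apply integral_mono_ae ((L2.integrable_inner u u).const_mul c) (L2.integrable_inner (c03_mul hw hC u) u)
  filter_upwards [c03_mul_ae hw hC u] with x hx
  rw [hx, RCLike.inner_apply, RCLike.inner_apply, conj_trivial, conj_trivial]
  have := mul_le_mul_of_nonneg_right (hc x) (mul_self_nonneg (u x))
  linarith

theorem c03_norm (U : JetSp A) : ‖U‖ ^ 2 = ‖U.fst‖ ^ 2 + ‖U.snd‖ ^ 2 := WithLp.prod_norm_sq_eq_of_L2 U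

/-- The bilinear form. -/
noncomputable def c03_B (H : Submodule ℝ (JetSp A)) (ε : ℝ) (T : Lp ℝ 2 A →L[ℝ] Lp ℝ 2 A) :
    H →L[ℝ] H →L[ℝ] ℝ :=
  LinearMap.mkContinuous₂ (LinearMap.mk₂ ℝ
    (fun U Z : H => ε ^ 2 * inner ℝ U.1.snd Z.1.snd + inner ℝ (T U.1.fst) Z.1.fst)
    (fun U V Z => by
      simp only [Submodule.coe_add, WithLp.add_fst, WithLp.add_snd, map_add, inner_add_left]
      ring)
    (fun r U Z => by
      simp only [Submodule.coe_smul, WithLp.smul_fst, WithLp.smul_snd, map_smul, inner_smul_left, conj_trivial,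
        smul_eq_mul]
      ring)
    (fun U V Z => by
      simp only [Submodule.coe_add, WithLp.add_fst, WithLp.add_snd, inner_add_right]
      ring)
    (fun r U Z => by
      simp only [Submodule.coe_smul, WithLp.smul_fst, WithLp.smul_snd, inner_smul_right, smul_eq_mul]
      ring)) (ε ^ 2 + ‖T‖) (fun U Z => by
      rw [LinearMap.mk₂_apply, Real.norm_eq_abs]
      have h1 : |inner ℝ U.1.snd Z.1.snd| ≤ ‖U‖ * ‖Z‖ :=
        (abs_real_inner_le_norm _ _).trans (mul_le_mul (norm_snd_le _) (norm_snd_le _) (norm_nonneg _) (norm_nonneg _))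
      have h2 : |inner ℝ (T U.1.fst) Z.1.fst| ≤ ‖T‖ * ‖U‖ * ‖Z‖ :=
        (abs_real_inner_le_norm _ _).trans (mul_le_mul ((T.le_opNorm _).trans
          (mul_le_mul_of_nonneg_left (norm_fst_le _) (norm_nonneg _))) (norm_fst_le _) (norm_nonneg _) (by positivity))
      calc |ε ^ 2 * inner ℝ U.1.snd Z.1.snd + inner ℝ (T U.1.fst) Z.1.fst|
          ≤ |ε ^ 2 * inner ℝ U.1.snd Z.1.snd| + |inner ℝ (T U.1.fst) Z.1.fst| := abs_add_le _ _
        _ ≤ ε ^ 2 * (‖U‖ * ‖Z‖) + ‖T‖ * ‖U‖ * ‖Z‖ := by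
            rw [abs_mul, abs_of_nonneg (sq_nonneg ε)]
            gcongr
        _ = (ε ^ 2 + ‖T‖) * ‖U‖ * ‖Z‖ := by ring)

theorem c03_B_apply (H : Submodule ℝ (JetSp A)) (ε : ℝ) (T : Lp ℝ 2 A →L[ℝ] Lp ℝ 2 A) (U Z : H) :
    c03_B H ε T U Z = ε ^ 2 * inner ℝ U.1.snd Z.1.snd + inner ℝ (T U.1.fst) Z.1.fst := rfl

/-- The first component as a continuous linear map. -/
noncomputable def c03_j (H : Submodule ℝ (JetSp A)) : H →L[ℝ] Lp ℝ 2 A :=
  LinearMap.mkContinuous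
    { toFun := fun U => U.1.fst
      map_add' := fun U V => rfl
      map_smul' := fun r U => rfl } 1 (fun U => by
        rw [one_mul]
        exact norm_fst_le _)

theorem c03_j_apply (H : Submodule ℝ (JetSp A)) (U : H) : c03_j H U = U.1.fst := rfl

theorem c03_coer (H : Submodule ℝ (JetSp A)) {ε : ℝ} (hε : 0 < ε) {w : Ω → ℝ} (hw : Measurable w) {c C : ℝ}
    (hc0 : 0 < c) (hc : ∀ x, c ≤ w x) (hC : ∀ x, |w x| ≤ C) : IsCoercive (c03_B H ε (c03_mul hw hC)) := by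
  refine ⟨min (ε ^ 2) c, lt_min (by positivity) hc0, fun U => ?_⟩
  rw [c03_B_apply]
  have h1 := c03_lower hw hc hC U.1.fst
  have h2 : inner ℝ U.1.snd U.1.snd = ‖U.1.snd‖ ^ 2 := real_inner_self_eq_norm_sq _
  have h3 := c03_norm U.1
  have h4 : min (ε ^ 2) c * ‖U.1.snd‖ ^ 2 ≤ ε ^ 2 * ‖U.1.snd‖ ^ 2 :=
    mul_le_mul_of_nonneg_right (min_le_left _ _) (by positivity)
  have h5 : min (ε ^ 2) c * ‖U.1.fst‖ ^ 2 ≤ c * ‖U.1.fst‖ ^ 2 :=
    mul_le_mul_of_nonneg_right (min_le_right _ _) (by positivity)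
  have h6 : min (ε ^ 2) c * ‖U‖ * ‖U‖ = min (ε ^ 2) c * ‖U.1‖ ^ 2 := by
    rw [Submodule.coe_norm]
    ring
  rw [h6, h2, h3]
  linarith

variable [IsFiniteMeasure A]

theorem exists_F {H : Submodule ℝ (JetSp A)} (hH : IsESpace H) {ε : ℝ} (hε : 0 < ε) {w : Ω → ℝ} (hw : IsWeight w) :
    ∃ F : Lp ℝ 2 A → JetSp A, (∀ u, IsF H ε w u (F u)) ∧ (∃ K, LipschitzWith K F) ∧ ∀ u, F (-u) = -F u := by
  obtain ⟨c, C, hc0, hc, hC⟩ := c03_bd hw
  have : CompleteSpace H := hH.closed.completeSpace_coe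
  set T := c03_mul (A := A) hw.1 hC with hT
  have hco := c03_coer H hε hw.1 hc0 hc hC
  set Λ := hco.continuousLinearEquivOfBilin with hΛ
  set L : Lp ℝ 2 A →L[ℝ] JetSp A :=
    H.subtypeL.comp (((Λ.symm : H →L[ℝ] H).comp (ContinuousLinearMap.adjoint (c03_j H))).comp T) with hL
  refine ⟨fun u => L (c03_g u), fun u => ⟨?_, fun Z hZ => ?_⟩, ⟨‖L‖₊ * 2, L.lipschitz.comp c03_g_lip⟩, fun u => ?_⟩
  · exact (Λ.symm (ContinuousLinearMap.adjoint (c03_j H) (T (c03_g u)))).2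
  · set ψ : H := Λ.symm (ContinuousLinearMap.adjoint (c03_j H) (T (c03_g u))) with hψ
    have h1 : c03_B H ε T ψ ⟨Z, hZ⟩ = inner ℝ (T (c03_g u)) Z.fst := by
      rw [← hco.continuousLinearEquivOfBilin_apply, ← hΛ, hψ, ContinuousLinearEquiv.apply_symm_apply,
        ContinuousLinearMap.adjoint_inner_left]
      rfl
    rw [c03_B_apply] at h1
    have h2 : L (c03_g u) = ψ.1 := rfl
    beta_reduce
    rw [h2, ← c03_inner hw.1 hC, h1, c03_inner hw.1 hC]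
    apply integral_congr_ae
    filter_upwards [c03_g_ae u] with x hx
    rw [hx]
  · show L (c03_g (-u)) = -L (c03_g u)
    rw [c03_g_neg, map_neg]

theorem IsF.unique {H : Submodule ℝ (JetSp A)} {ε : ℝ} (hε : 0 < ε) {w : Ω → ℝ} (hw : IsWeight w) {u : Lp ℝ 2 A}
    {ψ ψ' : JetSp A} (h : IsF H ε w u ψ) (h' : IsF H ε w u ψ') : ψ = ψ' := by
  obtain ⟨c, C, hc0, hc, hC⟩ := c03_bd hw
  have hco := c03_coer H hε hw.1 hc0 hc hC
  set D : H := ⟨ψ, h.1⟩ - ⟨ψ', h'.1⟩ with hD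
  have h1 : ∀ (φ : JetSp A) (hφ : IsF H ε w u φ), c03_B H ε (c03_mul hw.1 hC) ⟨φ, hφ.1⟩ D =
      ∫ x, w x * (u x - Wt' (u x)) * D.1.fst x ∂A := by
    intro φ hφ
    rw [c03_B_apply, ← hφ.2 D.1 D.2, c03_inner hw.1 hC]
  have h2 : c03_B H ε (c03_mul hw.1 hC) D D = 0 := by
    have h3 : c03_B H ε (c03_mul hw.1 hC) D = c03_B H ε (c03_mul hw.1 hC) ⟨ψ, h.1⟩ -
        c03_B H ε (c03_mul hw.1 hC) ⟨ψ', h'.1⟩ := by
      rw [hD, map_sub]
    rw [h3, sub_apply, h1 ψ h, h1 ψ' h', sub_self]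
  obtain ⟨r, hr, hr2⟩ := hco
  have h4 := hr2 D
  rw [h2] at h4
  have h5 : ‖D‖ = 0 := by
    by_contra h6
    have h7 : 0 < ‖D‖ := lt_of_le_of_ne (norm_nonneg _) (Ne.symm h6)
    have : 0 < r * ‖D‖ * ‖D‖ := by positivity
    linarith
  have h6 : D = 0 := norm_eq_zero.1 h5
  have h7 := sub_eq_zero.1 h6
  exact congrArg Subtype.val h7

theorem isWeak_iff {H : Submodule ℝ (JetSp A)} {ε : ℝ} {w : Ω → ℝ} (hw : IsWeight w) {U : JetSp A} :
    IsWeak H ε w U ↔ IsF H ε w U.fst U := by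
  obtain ⟨c, C, hc0, hc, hC⟩ := c03_bd hw
  have hWm := c03_memW (Lp.memLp U.fst)
  have key : ∀ Z : JetSp A, ∫ x, w x * (U.fst x - Wt' (U.fst x)) * Z.fst x ∂A =
      ∫ x, w x * U.fst x * Z.fst x ∂A - ∫ x, w x * Wt' (U.fst x) * Z.fst x ∂A := by
    intro Z
    have h1 : Integrable (fun x => w x * U.fst x * Z.fst x) A := integrable_mul3 hw.1 hC U.fst Z.fst
    have h2 : Integrable (fun x => w x * Wt' (U.fst x) * Z.fst x) A := by
      refine (integrable_mul3 hw.1 hC hWm.toLp Z.fst).congr ?_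
      filter_upwards [MemLp.coeFn_toLp hWm] with x hx
      rw [hx]
    rw [← integral_sub h1 h2]
    congr 1
    funext x
    ring
  constructor
  · rintro ⟨h1, h2⟩
    refine ⟨h1, fun Z hZ => ?_⟩
    rw [key Z]
    linarith [h2 Z hZ]
  · rintro ⟨h1, h2⟩
    refine ⟨h1, fun Z hZ => ?_⟩
    have := h2 Z hZ
    rw [key Z] at this
    linarith

end Pool.Agent.Helper53.CL.C
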