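import Pool.Agent.Helper53.CL.C.C03

/-!
# CL-C04: the Lyapunov inequality (about 100 lines)

Let `ψ = F(U.fst)`, `D = ψ - U`.  `Wt_taylor`: `en ψ - en U ≤ (ε/2)(‖ψ.snd‖^2 - ‖U.snd‖^2) + (1/ε) ∫ w (Wt'(U.fst) D.fst +
D.fst^2 / 2)`.  The equation with `Z = D` gives `∫ w Wt'(U.fst) D.fst = -ε^2 <ψ.snd, D.snd> - ∫ w D.fst^2`.  Hence
`en ψ - en U ≤ (ε/2)(‖ψ.snd‖^2 - ‖U.snd‖^2) - ε <ψ.snd, D.snd> - (1/(2ε)) ∫ w D.fst^2 = -(ε/2) ‖D.snd‖^2 - (1/(2ε)) ∫ w D.fst^2`.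
-/

namespace Pool.Agent.Helper53.CL.C

open MeasureTheory Filter Topology

variable {Ω : Type*} [MeasurableSpace Ω] {A : Measure Ω} [IsFiniteMeasure A]

private lemma h45_norm_sq (f : Lp ℝ 2 A) : ‖f‖ ^ 2 = ∫ x, f x ^ 2 ∂A := by
  have h1 : inner ℝ f f = ‖f‖ ^ 2 := real_inner_self_eq_norm_sq f
  rw [← h1, L2.inner_def]
  refine integral_congr_ae (Filter.Eventually.of_forall fun x => ?_)
  simp only [real_inner_self_eq_norm_sq, Real.norm_eq_abs, sq_abs]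

theorem lyapunov {H : Submodule ℝ (JetSp A)} {ε : ℝ} (hε : 0 < ε) {w : Ω → ℝ} (hw : IsWeight w)
    {U ψ : JetSp A} (hU : U ∈ H) (hψ : IsF H ε w U.fst ψ) :
    ε / 2 * ‖(ψ - U).snd‖ ^ 2 + 1 / (2 * ε) * ∫ x, w x * (ψ - U).fst x ^ 2 ∂A ≤ en ε w U - en ε w ψ := by
  obtain ⟨hwm, c, C, hc, hcC⟩ := hw
  have hwC : ∀ x, |w x| ≤ C := fun x => by
    rw [abs_of_pos (lt_of_lt_of_le hc (hcC x).1)]
    exact (hcC x).2
  have hw' : IsWeight w := ⟨hwm, c, C, hc, hcC⟩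
  obtain ⟨D, hD⟩ : ∃ D, D = ψ - U := ⟨_, rfl⟩
  have hDH : D ∈ H := by rw [hD]; exact H.sub_mem hψ.1 hU
  have hDf : D.fst = ψ.fst - U.fst := by rw [hD]; rfl
  have hDs : D.snd = ψ.snd - U.snd := by rw [hD]; rfl
  have hDae : ∀ᵐ x ∂A, D.fst x = ψ.fst x - U.fst x := by
    rw [hDf]
    exact Lp.coeFn_sub _ _
  rw [← hD]
  have i1 : Integrable (fun x => w x * Wt (ψ.fst x)) A := integrable_Wt hw' _
  have i2 : Integrable (fun x => w x * Wt (U.fst x)) A := integrable_Wt hw' _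
  have i3 : Integrable (fun x => w x * U.fst x * D.fst x) A := integrable_mul3 hwm hwC _ _
  have i4 : Integrable (fun x => w x * ψ.fst x * D.fst x) A := integrable_mul3 hwm hwC _ _
  have i5 : Integrable (fun x => w x * D.fst x * D.fst x) A := integrable_mul3 hwm hwC _ _
  have i6 : Integrable (fun x => w x * Wt' (U.fst x) * D.fst x) A := by
    refine i3.mono ?_ (Filter.Eventually.of_forall fun x => ?_)
    · exact (hwm.aestronglyMeasurable.mul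
        (lip_Wt'.continuous.comp_aestronglyMeasurable (Lp.aestronglyMeasurable U.fst))).mul
        (Lp.aestronglyMeasurable D.fst)
    · rw [norm_mul, norm_mul, norm_mul, norm_mul]
      refine mul_le_mul_of_nonneg_right (mul_le_mul_of_nonneg_left ?_ (norm_nonneg _))
        (norm_nonneg _)
      exact abs_Wt'_le _
  -- the equation
  have e1 := hψ.2 D hDH
  have e2 : ∫ x, w x * (U.fst x - Wt' (U.fst x)) * D.fst x ∂A =
      ∫ x, w x * U.fst x * D.fst x ∂A - ∫ x, w x * Wt' (U.fst x) * D.fst x ∂A := by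
    rw [← integral_sub i3 i6]
    refine integral_congr_ae (Filter.Eventually.of_forall fun x => ?_)
    simp only
    ring
  have e3 : ∫ x, w x * D.fst x * D.fst x ∂A =
      ∫ x, w x * ψ.fst x * D.fst x ∂A - ∫ x, w x * U.fst x * D.fst x ∂A := by
    rw [← integral_sub i4 i3]
    refine integral_congr_ae ?_
    filter_upwards [hDae] with x hx
    rw [hx]
    ring
  have e4 : ∫ x, w x * D.fst x ^ 2 ∂A = ∫ x, w x * D.fst x * D.fst x ∂A := by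
    refine integral_congr_ae (Filter.Eventually.of_forall fun x => ?_)
    simp only
    ring
  -- Taylor
  have t1 : ∫ x, w x * Wt (ψ.fst x) ∂A ≤ ∫ x, w x * Wt (U.fst x) ∂A +
      ∫ x, w x * Wt' (U.fst x) * D.fst x ∂A + 1 / 2 * ∫ x, w x * D.fst x * D.fst x ∂A := by
    have i26 : Integrable (fun x => w x * Wt (U.fst x) + w x * Wt' (U.fst x) * D.fst x) A :=
      i2.add i6
    rw [← integral_add i2 i6, ← integral_const_mul, ← integral_add i26 (i5.const_mul _)]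
    refine integral_mono_ae i1 (i26.add (i5.const_mul _)) ?_
    filter_upwards [hDae] with x hx
    rw [hx]
    have h1 := Wt_taylor (U.fst x) (ψ.fst x)
    have h2 : 0 ≤ w x := (lt_of_lt_of_le hc (hcC x).1).le
    have h3 := mul_le_mul_of_nonneg_left h1 h2
    linarith
  have s1 : inner ℝ ψ.snd D.snd = ‖ψ.snd‖ ^ 2 / 2 - ‖U.snd‖ ^ 2 / 2 + ‖D.snd‖ ^ 2 / 2 := by
    have h1 : U.snd = ψ.snd - D.snd := by rw [hDs]; abel
    have h2 := norm_sub_sq_real ψ.snd D.snd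
    rw [← h1] at h2
    linarith
  have hI : ∫ x, w x * Wt' (U.fst x) * D.fst x ∂A =
      -(∫ x, w x * D.fst x * D.fst x ∂A) - ε ^ 2 * inner ℝ ψ.snd D.snd := by
    rw [e2] at e1
    rw [e3]
    linarith
  rw [hI, s1] at t1
  unfold en
  rw [e4]
  obtain ⟨a, ha⟩ : ∃ a, a = ∫ x, w x * Wt (ψ.fst x) ∂A := ⟨_, rfl⟩
  obtain ⟨b, hb⟩ : ∃ b, b = ∫ x, w x * Wt (U.fst x) ∂A := ⟨_, rfl⟩
  obtain ⟨d, hd⟩ : ∃ d, d = ∫ x, w x * D.fst x * D.fst x ∂A := ⟨_, rfl⟩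
  rw [← ha, ← hb, ← hd] at t1
  rw [← ha, ← hb, ← hd]
  have h1 : 1 / ε * a ≤ 1 / ε * (b + (-d - ε ^ 2 * (‖ψ.snd‖ ^ 2 / 2 - ‖U.snd‖ ^ 2 / 2 +
      ‖D.snd‖ ^ 2 / 2)) + 1 / 2 * d) := mul_le_mul_of_nonneg_left t1 (by positivity)
  have h2 : 1 / ε * (b + (-d - ε ^ 2 * (‖ψ.snd‖ ^ 2 / 2 - ‖U.snd‖ ^ 2 / 2 +
      ‖D.snd‖ ^ 2 / 2)) + 1 / 2 * d) = 1 / ε * b - 1 / (2 * ε) * d - ε * (‖ψ.snd‖ ^ 2 / 2 -
      ‖U.snd‖ ^ 2 / 2 + ‖D.snd‖ ^ 2 / 2) := by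
    field_simp
    ring
  rw [h2] at h1
  linarith

/-- A consequence: the distance of `U` to `F(U.fst)` is controlled by the loss of energy. -/
theorem lyapunov_norm {H : Submodule ℝ (JetSp A)} {ε : ℝ} (hε : 0 < ε) {w : Ω → ℝ} (hw : IsWeight w) :
    ∃ K, 0 ≤ K ∧ ∀ U ψ : JetSp A, U ∈ H → IsF H ε w U.fst ψ → ‖ψ - U‖ ^ 2 ≤ K * (en ε w U - en ε w ψ) := by
  have hw' := hw
  obtain ⟨hwm, c, C, hc, hcC⟩ := hw
  have hwC : ∀ x, |w x| ≤ C := fun x => by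
    rw [abs_of_pos (lt_of_lt_of_le hc (hcC x).1)]
    exact (hcC x).2
  refine ⟨2 / ε + 2 * ε / c, by positivity, fun U ψ hU hψ => ?_⟩
  have h1 := lyapunov hε hw' hU hψ
  obtain ⟨D, hD⟩ : ∃ D, D = ψ - U := ⟨_, rfl⟩
  rw [← hD] at h1 ⊢
  obtain ⟨E, hE⟩ : ∃ E, E = en ε w U - en ε w ψ := ⟨_, rfl⟩
  rw [← hE] at h1 ⊢
  have i5 : Integrable (fun x => w x * D.fst x ^ 2) A := by
    have := integrable_mul3 (A := A) hwm hwC D.fst D.fst
    refine this.congr (Filter.Eventually.of_forall fun x => ?_)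
    simp only
    ring
  have i7 : Integrable (fun x => D.fst x ^ 2) A := by
    have := integrable_mul3 (A := A) (b := fun _ => 1) measurable_const (K := 1) (by simp)
      D.fst D.fst
    refine this.congr (Filter.Eventually.of_forall fun x => ?_)
    simp only
    ring
  have h2 : c * ‖D.fst‖ ^ 2 ≤ ∫ x, w x * D.fst x ^ 2 ∂A := by
    rw [h45_norm_sq, ← integral_const_mul]
    refine integral_mono (i7.const_mul c) i5 fun x => ?_
    exact mul_le_mul_of_nonneg_right (hcC x).1 (sq_nonneg _)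
  have h3 : 0 ≤ ε / 2 * ‖D.snd‖ ^ 2 := by positivity
  have h4 : 0 ≤ c * ‖D.fst‖ ^ 2 := by positivity
  have h5 : 1 / (2 * ε) * (c * ‖D.fst‖ ^ 2) ≤ 1 / (2 * ε) * ∫ x, w x * D.fst x ^ 2 ∂A :=
    mul_le_mul_of_nonneg_left h2 (by positivity)
  have h6 : 0 ≤ 1 / (2 * ε) * (c * ‖D.fst‖ ^ 2) := by positivity
  have h7 : ‖D.snd‖ ^ 2 ≤ 2 / ε * E := by
    have h8 : ε / 2 * ‖D.snd‖ ^ 2 ≤ E := by linarith
    have h9 := mul_le_mul_of_nonneg_left h8 (by positivity : 0 ≤ 2 / ε)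
    have h10 : 2 / ε * (ε / 2 * ‖D.snd‖ ^ 2) = ‖D.snd‖ ^ 2 := by
      field_simp
    linarith
  have h8 : ‖D.fst‖ ^ 2 ≤ 2 * ε / c * E := by
    have h9 : 1 / (2 * ε) * (c * ‖D.fst‖ ^ 2) ≤ E := by linarith
    have h10 := mul_le_mul_of_nonneg_left h9 (by positivity : 0 ≤ 2 * ε / c)
    have h11 : 2 * ε / c * (1 / (2 * ε) * (c * ‖D.fst‖ ^ 2)) = ‖D.fst‖ ^ 2 := by
      field_simp
    linarith
  rw [WithLp.prod_norm_sq_eq_of_L2]
  linarith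

end Pool.Agent.Helper53.CL.C
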