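import Pool.Agent.Helper53.CL.C.C02

/-!
# CL-C05: the sublevel sets are compact (about 200 lines)

`fst_inj`: `IsESpace.inj` for the difference.
`exists_limit_of_bounded`: let `U n ∈ H`, `‖U n‖ ≤ R`, `U n .fst → u` in `L^2` and `‖(U n).snd‖^2 ≤ r n`, `r n → r`.  Then there is
`U ∈ H` with `U.fst = u`, `‖U.snd‖^2 ≤ r`.  Proof.  Let `C_n ⊆ H` be the closed convex hull of `{U k | k ≥ n}`: nonempty, closed,
convex, bounded, decreasing; it has a point `V_n` of minimal norm (`exists_norm_eq_iInf_of_complete_convex`), `‖V_n‖` is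
increasing and bounded by `R`, so converges; by the parallelogram law for `V_n, V_m ∈ C_n`, `n ≤ m`:
`‖V_n - V_m‖^2 ≤ 2 ‖V_n‖^2 + 2 ‖V_m‖^2 - 4 ‖V_n‖^2 → 0`, so `V_n → U ∈ ⋂ C_n`.  All elements of `C_n` satisfy
`‖V.fst - u‖ ≤ sup_{k ≥ n} ‖(U k).fst - u‖` and `‖V.snd‖^2 ≤ sup_{k ≥ n} r k` (closed convex conditions).  (Alternative: weak
sequential compactness of balls of Hilbert spaces.)
`isCompact_sub`: `sub H ε w c` is contained in the compact closure of `rellich` (`en_bound`), and it is closed: if `u n → u`,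
`u n = (U n).fst`, `en ε w (U n) ≤ c`, then `(ε/2) ‖(U n).snd‖^2 ≤ c - (1/ε) ∫ w Wt(u n) → c - (1/ε) ∫ w Wt(u)` (`continuous_pot`).
`sub_symm`: `U ↦ -U`.  `sub_inter`: by `fst_inj` the `U` with `U.fst = u` is unique.  `sub_mono` clear.
-/

namespace Pool.Agent.Helper53.CL.C

open MeasureTheory Filter Topology

variable {Ω : Type*} [MeasurableSpace Ω] {A : Measure Ω} [IsFiniteMeasure A]

private lemma h45_weak {E : Type*} [NormedAddCommGroup E] [InnerProductSpace ℝ E] [CompleteSpace E]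
    {U : ℕ → E} {R : ℝ} (hR : ∀ n, ‖U n‖ ≤ R) :
    ∃ V : E, ∀ Z, Tendsto (fun n => (inner ℝ (U n) Z : ℝ)) (Filter.hyperfilter ℕ)
      (𝓝 (inner ℝ V Z)) := by
  have hK := WeakDual.isCompact_closedBall (𝕜 := ℝ) (0 : StrongDual ℝ E) R
  obtain ⟨g, hg⟩ : ∃ g : ℕ → WeakDual ℝ E,
      g = fun n => StrongDual.toWeakDual (InnerProductSpace.toDual ℝ E (U n)) := ⟨_, rfl⟩
  have hmem : ∀ n, g n ∈ WeakDual.toStrongDual ⁻¹' Metric.closedBall (0 : StrongDual ℝ E) R := by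
    intro n
    rw [hg, Set.mem_preimage, Metric.mem_closedBall, dist_zero_right]
    have : WeakDual.toStrongDual (StrongDual.toWeakDual (InnerProductSpace.toDual ℝ E (U n))) =
      InnerProductSpace.toDual ℝ E (U n) := rfl
    rw [this, LinearIsometryEquiv.norm_map]
    exact hR n
  obtain ⟨φ, _, hle⟩ := hK.ultrafilter_le_nhds (Ultrafilter.map g (Filter.hyperfilter ℕ)) (by
    rw [Filter.le_principal_iff]
    exact Filter.mem_map.2 (Filter.univ_mem' hmem))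
  refine ⟨(InnerProductSpace.toDual ℝ E).symm (WeakDual.toStrongDual φ), fun Z => ?_⟩
  have h1 : Tendsto g (Filter.hyperfilter ℕ) (𝓝 φ) := hle
  have h2 := ((WeakDual.eval_continuous (𝕜 := ℝ) Z).tendsto φ).comp h1
  rw [InnerProductSpace.toDual_symm_apply]
  rw [hg] at h2
  exact h2

omit [IsFiniteMeasure A] in
theorem fst_inj {H : Submodule ℝ (JetSp A)} (hH : IsESpace H) {U V : JetSp A} (hU : U ∈ H) (hV : V ∈ H)
    (h : U.fst = V.fst) : U = V := by
  have h1 := hH.inj (U - V) (H.sub_mem hU hV) (by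
    change U.fst - V.fst = 0
    rw [h, sub_self])
  exact sub_eq_zero.1 h1

omit [IsFiniteMeasure A] in
theorem exists_limit_of_bounded {H : Submodule ℝ (JetSp A)} (hH : IsESpace H) {U : ℕ → JetSp A} (hU : ∀ n, U n ∈ H)
    {R : ℝ} (hR : ∀ n, ‖U n‖ ≤ R) {u : Lp ℝ 2 A} (hu : Tendsto (fun n => (U n).fst) atTop (𝓝 u)) {r : ℕ → ℝ} {r₀ : ℝ}
    (hr : ∀ n, ‖(U n).snd‖ ^ 2 ≤ r n) (hr₀ : Tendsto r atTop (𝓝 r₀)) :
    ∃ V ∈ H, V.fst = u ∧ ‖V.snd‖ ^ 2 ≤ r₀ := by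
  have hhyp : ((Filter.hyperfilter ℕ : Ultrafilter ℕ) : Filter ℕ) ≤ atTop :=
    Nat.hyperfilter_le_atTop
  obtain ⟨V, hV⟩ := h45_weak hR
  refine ⟨V, ?_, ?_, ?_⟩
  · -- `V ∈ H`
    have hcl : IsClosed (H : Set (JetSp A)) := hH.closed
    have : CompleteSpace H := hcl.completeSpace_coe
    rw [← Submodule.orthogonal_orthogonal H, Submodule.mem_orthogonal']
    intro Z hZ
    have h1 : Tendsto (fun n => (inner ℝ (U n) Z : ℝ)) (Filter.hyperfilter ℕ) (𝓝 0) := by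
      have h2 : (fun n => (inner ℝ (U n) Z : ℝ)) = fun _ => 0 := by
        funext n
        exact (Submodule.mem_orthogonal H Z).1 hZ (U n) (hU n)
      rw [h2]
      exact tendsto_const_nhds
    exact tendsto_nhds_unique (hV Z) h1
  · -- the first component
    refine ext_inner_right ℝ fun z => ?_
    have h1 := hV (WithLp.toLp 2 (z, 0))
    simp only [WithLp.prod_inner_apply, WithLp.ofLp_toLp, inner_zero_right, add_zero] at h1
    have h2 : Tendsto (fun n => (inner ℝ (U n).fst z : ℝ)) (Filter.hyperfilter ℕ)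
        (𝓝 (inner ℝ u z)) :=
      ((hu.mono_left hhyp).inner tendsto_const_nhds)
    exact tendsto_nhds_unique h1 h2
  · -- the second component
    have h1 := hV (WithLp.toLp 2 (0, V.snd))
    simp only [WithLp.prod_inner_apply, WithLp.ofLp_toLp, inner_zero_right, zero_add] at h1
    have h2 : Tendsto (fun n => Real.sqrt (r n) * ‖V.snd‖) (Filter.hyperfilter ℕ)
        (𝓝 (Real.sqrt r₀ * ‖V.snd‖)) :=
      ((hr₀.mono_left hhyp).sqrt).mul_const _
    have h3 : (inner ℝ V.snd V.snd : ℝ) ≤ Real.sqrt r₀ * ‖V.snd‖ := by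
      refine le_of_tendsto_of_tendsto' h1 h2 fun n => ?_
      refine (real_inner_le_norm _ _).trans (mul_le_mul_of_nonneg_right ?_ (norm_nonneg _))
      exact Real.le_sqrt_of_sq_le (hr n)
    rw [real_inner_self_eq_norm_sq] at h3
    have hr₀' : 0 ≤ r₀ := ge_of_tendsto' hr₀ fun n => (sq_nonneg _).trans (hr n)
    rcases (norm_nonneg V.snd).eq_or_lt with h4 | h4
    · rw [← h4]
      simpa using hr₀'
    · have h5 : ‖V.snd‖ ≤ Real.sqrt r₀ := by
        rw [sq] at h3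
        exact le_of_mul_le_mul_right h3 h4
      calc ‖V.snd‖ ^ 2 ≤ Real.sqrt r₀ ^ 2 := pow_le_pow_left₀ (norm_nonneg _) h5 2
        _ = r₀ := Real.sq_sqrt hr₀'

theorem isCompact_sub {H : Submodule ℝ (JetSp A)} (hH : IsESpace H) {ε : ℝ} (hε : 0 < ε) {w : Ω → ℝ} (hw : IsWeight w)
    (c : ℝ) : IsCompact (sub H ε w c) := by
  obtain ⟨R, hR⟩ := en_bound (A := A) hε hw c
  refine (hH.rellich R).of_isClosed_subset ?_ ?_
  · refine IsSeqClosed.isClosed ?_
    intro u u₀ hu hlim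
    choose U hUH hUu hUc using hu
    obtain ⟨hwm, c', C', hc', hcC⟩ := hw
    have hwC : ∀ x, |w x| ≤ C' := fun x => by
      rw [abs_of_pos (lt_of_lt_of_le hc' (hcC x).1)]
      exact (hcC x).2
    have hpot := continuous_pot (A := A) hwm hwC
    have h1 : Tendsto (fun n => (U n).fst) atTop (𝓝 u₀) := by
      simp only [hUu]
      exact hlim
    have h2 : Tendsto (fun n => 2 / ε * (c - 1 / ε * ∫ x, w x * Wt (u n x) ∂A)) atTop
        (𝓝 (2 / ε * (c - 1 / ε * ∫ x, w x * Wt (u₀ x) ∂A))) :=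
      (((hpot.tendsto u₀).comp hlim).const_mul (1 / ε)).const_sub c |>.const_mul (2 / ε)
    have h3 : ∀ n, ‖(U n).snd‖ ^ 2 ≤ 2 / ε * (c - 1 / ε * ∫ x, w x * Wt (u n x) ∂A) := by
      intro n
      have h4 := hUc n
      unfold en at h4
      rw [hUu n] at h4
      have h5 : ε / 2 * ‖(U n).snd‖ ^ 2 ≤ c - 1 / ε * ∫ x, w x * Wt (u n x) ∂A := by linarith
      have h6 := mul_le_mul_of_nonneg_left h5 (by positivity : 0 ≤ 2 / ε)
      have h7 : 2 / ε * (ε / 2 * ‖(U n).snd‖ ^ 2) = ‖(U n).snd‖ ^ 2 := by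
        field_simp
      linarith
    obtain ⟨V, hVH, hVu, hVs⟩ := exists_limit_of_bounded hH hUH (fun n => hR _ (hUc n)) h1 h3 h2
    refine ⟨V, hVH, hVu, ?_⟩
    unfold en
    rw [hVu]
    have h6 := mul_le_mul_of_nonneg_left hVs (by positivity : 0 ≤ ε / 2)
    have h7 : ε / 2 * (2 / ε * (c - 1 / ε * ∫ x, w x * Wt (u₀ x) ∂A)) =
        c - 1 / ε * ∫ x, w x * Wt (u₀ x) ∂A := by
      field_simp
    linarith
  · rintro u ⟨U, hUH, hUu, hUc⟩
    exact subset_closure ⟨U, hUH, hR U hUc, hUu⟩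

omit [IsFiniteMeasure A] in
theorem sub_mono {H : Submodule ℝ (JetSp A)} {ε : ℝ} {w : Ω → ℝ} {c c' : ℝ} (h : c ≤ c') :
    sub H ε w c ⊆ sub H ε w c' := by
  rintro u ⟨U, hUH, hUu, hUc⟩
  exact ⟨U, hUH, hUu, hUc.trans h⟩

theorem sub_symm {H : Submodule ℝ (JetSp A)} {ε : ℝ} {w : Ω → ℝ} {c : ℝ} {u : Lp ℝ 2 A} (h : u ∈ sub H ε w c) :
    -u ∈ sub H ε w c := by
  obtain ⟨U, hUH, hUu, hUc⟩ := h
  refine ⟨-U, H.neg_mem hUH, ?_, ?_⟩
  · rw [← hUu]
    rfl
  · rw [en_neg]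
    exact hUc

omit [IsFiniteMeasure A] in
theorem sub_inter {H : Submodule ℝ (JetSp A)} (hH : IsESpace H) {ε : ℝ} {w : Ω → ℝ} {c : ℝ} {u : Lp ℝ 2 A}
    (h : ∀ c' > c, u ∈ sub H ε w c') : u ∈ sub H ε w c := by
  obtain ⟨U, hUH, hUu, _⟩ := h (c + 1) (by linarith)
  refine ⟨U, hUH, hUu, le_of_forall_gt_imp_ge_of_dense fun c' hc' => ?_⟩
  obtain ⟨V, hVH, hVu, hVc⟩ := h c' hc'
  have : U = V := fst_inj hH hUH hVH (hUu.trans hVu.symm)
  rw [this]
  exact hVc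

end Pool.Agent.Helper53.CL.C
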