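import Pool.Agent.Helper53.CL.C.C04
import Pool.Agent.Helper53.CL.C.C05

/-!
# CL-C06: Palais-Smale sequences for the map `F` (about 100 lines)

`‖F(U n .fst) - U n‖ → 0` by `lyapunov_norm`.  The functions `(U n).fst` are in the compact set `sub H ε w C`
(`isCompact_sub`), a subsequence converges to `u` in `L^2`; `F` is Lipschitz, `F((U n).fst) → F u`, so `U n → F u =: U'` in norm;
`U'.fst = u`, so `IsF H ε w U'.fst U'`, i.e. `IsWeak` (`isWeak_iff`).
-/

namespace Pool.Agent.Helper53.CL.C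

open MeasureTheory Filter Topology

variable {Ω : Type*} [MeasurableSpace Ω] {A : Measure Ω} [IsFiniteMeasure A]

theorem palais_smale {H : Submodule ℝ (JetSp A)} (hH : IsESpace H) {ε : ℝ} (hε : 0 < ε) {w : Ω → ℝ} (hw : IsWeight w)
    {F : Lp ℝ 2 A → JetSp A} (hF : ∀ u, IsF H ε w u (F u)) (hFc : Continuous F) {U : ℕ → JetSp A} (hU : ∀ n, U n ∈ H)
    {c : ℝ} (hc : ∀ n, en ε w (U n) ≤ c)
    (h0 : Tendsto (fun n => en ε w (U n) - en ε w (F (U n).fst)) atTop (𝓝 0)) :
    ∃ (σ : ℕ → ℕ) (U' : JetSp A), StrictMono σ ∧ IsWeak H ε w U' ∧ Tendsto (U ∘ σ) atTop (𝓝 U') := by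
  obtain ⟨K, hK, hly⟩ := lyapunov_norm (A := A) (H := H) hε hw
  have hd : Tendsto (fun n => F (U n).fst - U n) atTop (𝓝 0) := by
    rw [tendsto_zero_iff_norm_tendsto_zero]
    have h1 : Tendsto (fun n => ‖F (U n).fst - U n‖ ^ 2) atTop (𝓝 0) := by
      refine squeeze_zero (fun n => sq_nonneg _) (fun n => hly (U n) (F (U n).fst) (hU n) (hF _)) ?_
      have h2 := h0.const_mul K
      rwa [mul_zero] at h2
    have h3 := (Real.continuous_sqrt.tendsto 0).comp h1
    rw [Real.sqrt_zero] at h3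
    refine h3.congr fun n => ?_
    simp only [Function.comp_apply]
    exact Real.sqrt_sq (norm_nonneg _)
  have hmem : ∀ n, (U n).fst ∈ sub H ε w c := fun n => ⟨U n, hU n, rfl, hc n⟩
  obtain ⟨u, _, σ, hσ, hlim⟩ := (isCompact_sub hH hε hw c).tendsto_subseq hmem
  have h1 : Tendsto (fun n => F (U (σ n)).fst) atTop (𝓝 (F u)) := (hFc.tendsto u).comp hlim
  have h2 : Tendsto (fun n => F (U (σ n)).fst - U (σ n)) atTop (𝓝 0) := hd.comp hσ.tendsto_atTop
  have h3 : Tendsto (U ∘ σ) atTop (𝓝 (F u)) := by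
    have h4 := h1.sub h2
    rw [sub_zero] at h4
    refine h4.congr fun n => ?_
    simp only [Function.comp_apply]
    abel
  have hfst : (F u).fst = u := by
    have hcont : Continuous (fun V : JetSp A => V.fst) := by
      refine (LipschitzWith.of_dist_le_mul (K := 1) fun V W => ?_).continuous
      rw [dist_eq_norm, dist_eq_norm, NNReal.coe_one, one_mul]
      exact norm_fst_le (V - W)
    have h4 := (hcont.tendsto (F u)).comp h3
    exact tendsto_nhds_unique h4 hlim
  refine ⟨σ, F u, hσ, ?_, h3⟩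
  rw [isWeak_iff hw, hfst]
  exact hF u

end Pool.Agent.Helper53.CL.C
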