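import Pool.Agent.Helper53.CL.Defs

/-!
# CL-C07: genus calculus (topology, independent, about 250 lines)

`GenusLE A k`: there is `f : X → ℝ^k` continuous on `A`, odd on `A`, without zeros on `A`.
`genus_mono`, `genus_pull`: compose with the odd map.
`genus_extend`: let `A` be closed and symmetric (`x ∈ A → -x ∈ A`); by Tietze (`ContinuousMap.exists_restrict_eq` or
`IsClosed.exists_continuousMap...`, coordinatewise) the restriction of `f` to `A` extends to a continuous `g` on the normal space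
`X`, and `(g x - g (-x)) / 2` is odd, continuous on `X` and equals `f` on `A`.
`genus_union`: the pair of the two extensions, as a map to `ℝ^(k₁ + k₂)` (`EuclideanSpace` of `Fin k₁ ⊕ Fin k₂` reindexed, or
`Fin.append`).
`genus_nhds`: for `A` compact: the extension `g` has no zero on `A`, hence none on the open set `{g ≠ 0} ⊇ A`, which is symmetric.
`genus_decreasing`: `A n` decreasing compact symmetric sets with intersection in the open set `{g ≠ 0}`: some `A n` is inside
(`exists_subset_nhds_of_isCompact`...).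
`genus_zero`: `GenusLE A 0 ↔ A = ∅`.  `genus_le_of_le`: add zero coordinates.
`not_genus_of_zero_mem`: if `0 ∈ A` then `f 0 = -f 0 = 0`.
-/

namespace Pool.Agent.Helper53.CL.C

open Filter Topology Set

variable {X Y : Type*} [NormedAddCommGroup X] [NormedAddCommGroup Y]

theorem genus_mono {A B : Set X} (h : A ⊆ B) {k : ℕ} (hB : GenusLE B k) : GenusLE A k := by
  obtain ⟨f, h1, h2, h3⟩ := hB
  exact ⟨f, h1.mono h, fun x hx => h2 x (h hx), fun x hx => h3 x (h hx)⟩

theorem genus_pull {A : Set X} {B : Set Y} {g : X → Y} (hg : ContinuousOn g A) (ho : ∀ x ∈ A, g (-x) = -g x)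
    (hm : MapsTo g A B) {k : ℕ} (hB : GenusLE B k) : GenusLE A k := by
  obtain ⟨f, h1, h2, h3⟩ := hB
  refine ⟨f ∘ g, h1.comp hg hm, fun x hx => ?_, fun x hx => h3 _ (hm hx)⟩
  change f (g (-x)) = -f (g x)
  rw [ho x hx, h2 _ (hm hx)]

theorem genus_extend {A : Set X} (hA : IsClosed A) (hs : ∀ x ∈ A, -x ∈ A) {k : ℕ} (h : GenusLE A k) :
    ∃ g : X → EuclideanSpace ℝ (Fin k), Continuous g ∧ (∀ x, g (-x) = -g x) ∧ ∀ x ∈ A, g x ≠ 0 := by
  obtain ⟨f, h1, h2, h3⟩ := h
  have hT : TietzeExtension (EuclideanSpace ℝ (Fin k)) := TietzeExtension.of_tvs ℝ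
  let f₀ : C(A, EuclideanSpace ℝ (Fin k)) := ⟨A.domRestrict f, h1.domRestrict⟩
  obtain ⟨G, hG⟩ := ContinuousMap.exists_restrict_eq hA f₀
  have hGf : ∀ x ∈ A, G x = f x := by
    intro x hx
    have := congrArg (fun F : C(A, EuclideanSpace ℝ (Fin k)) => F ⟨x, hx⟩) hG
    exact this
  refine ⟨fun x => (1 / 2 : ℝ) • (G x - G (-x)), ?_, ?_, ?_⟩
  · exact (G.continuous.sub (G.continuous.comp continuous_neg)).const_smul (1 / 2 : ℝ)
  · intro x
    change (1 / 2 : ℝ) • (G (-x) - G (- -x)) = -((1 / 2 : ℝ) • (G x - G (-x)))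
    rw [neg_neg, ← smul_neg, neg_sub]
  · intro x hx
    have e : (1 / 2 : ℝ) • (G x - G (-x)) = f x := by
      rw [hGf x hx, hGf (-x) (hs x hx), h2 x hx, sub_neg_eq_add, ← two_smul ℝ (f x), smul_smul]
      norm_num
    change (1 / 2 : ℝ) • (G x - G (-x)) ≠ 0
    rw [e]
    exact h3 x hx

theorem genus_union {A B : Set X} (hA : IsClosed A) (hB : IsClosed B) (hsA : ∀ x ∈ A, -x ∈ A) (hsB : ∀ x ∈ B, -x ∈ B)
    {k l : ℕ} (h1 : GenusLE A k) (h2 : GenusLE B l) : GenusLE (A ∪ B) (k + l) := by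
  obtain ⟨g1, c1, o1, n1⟩ := genus_extend hA hsA h1
  obtain ⟨g2, c2, o2, n2⟩ := genus_extend hB hsB h2
  have hfr : Module.finrank ℝ (EuclideanSpace ℝ (Fin k) × EuclideanSpace ℝ (Fin l)) =
      Module.finrank ℝ (EuclideanSpace ℝ (Fin (k + l))) := by
    rw [Module.finrank_prod, finrank_euclideanSpace_fin, finrank_euclideanSpace_fin,
      finrank_euclideanSpace_fin]
  let L := ContinuousLinearEquiv.ofFinrankEq (𝕜 := ℝ) hfr
  refine ⟨fun x => L (g1 x, g2 x), ?_, ?_, ?_⟩
  · exact (L.continuous.comp (c1.prodMk c2)).continuousOn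
  · intro x _
    change L (g1 (-x), g2 (-x)) = -L (g1 x, g2 x)
    rw [o1, o2, ← map_neg]
    rfl
  · intro x hx h0
    change L (g1 x, g2 x) = 0 at h0
    have h3 : (g1 x, g2 x) = 0 := by
      apply L.injective
      rw [h0, map_zero]
    rcases hx with hx | hx
    · exact n1 x hx (Prod.mk.inj h3).1
    · exact n2 x hx (Prod.mk.inj h3).2

theorem genus_iUnion {n : ℕ} {A : Fin n → Set X} (hA : ∀ i, IsClosed (A i)) (hs : ∀ i, ∀ x ∈ A i, -x ∈ A i) {k : ℕ}
    (h : ∀ i, GenusLE (A i) k) : GenusLE (⋃ i, A i) (n * k) := by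
  have hex := fun i => genus_extend (hA i) (hs i) (h i)
  choose g c o nz using hex
  have hfr : Module.finrank ℝ (Fin n → EuclideanSpace ℝ (Fin k)) =
      Module.finrank ℝ (EuclideanSpace ℝ (Fin (n * k))) := by
    rw [Module.finrank_pi_fintype, finrank_euclideanSpace_fin]
    simp
  let L := ContinuousLinearEquiv.ofFinrankEq (𝕜 := ℝ) hfr
  refine ⟨fun x => L (fun i => g i x), ?_, ?_, ?_⟩
  · exact (L.continuous.comp (continuous_pi c)).continuousOn
  · intro x _
    change L (fun i => g i (-x)) = -L (fun i => g i x)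
    rw [← map_neg]
    congr 1
    funext i
    exact o i x
  · intro x hx h0
    change L (fun i => g i x) = 0 at h0
    have h3 : (fun i => g i x) = 0 := by
      apply L.injective
      rw [h0, map_zero]
    obtain ⟨i, hi⟩ := mem_iUnion.1 hx
    exact nz i x hi (congrFun h3 i)

theorem genus_decreasing {A : ℕ → Set X} (hA : ∀ n, IsCompact (A n)) (hd : Antitone A) (hs : ∀ n, ∀ x ∈ A n, -x ∈ A n)
    {k : ℕ} (h : GenusLE (⋂ n, A n) k) : ∃ n, GenusLE (A n) k := by
  have hcl : IsClosed (⋂ n, A n) := isClosed_iInter fun n => (hA n).isClosed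
  have hsym : ∀ x ∈ ⋂ n, A n, -x ∈ ⋂ n, A n := by
    intro x hx
    exact mem_iInter.2 fun n => hs n x (mem_iInter.1 hx n)
  obtain ⟨g, c, o, nz⟩ := genus_extend hcl hsym h
  have hopen : IsOpen {x | g x ≠ 0} := isOpen_ne_fun c continuous_const
  obtain ⟨n, hn⟩ := exists_subset_nhds_of_isCompact' (V := A) hd.directed_ge hA
    (fun n => (hA n).isClosed) (U := {x | g x ≠ 0}) (fun x hx => hopen.mem_nhds (nz x hx))
  exact ⟨n, g, c.continuousOn, fun x _ => o x, fun x hx => hn hx⟩

theorem genus_zero {A : Set X} : GenusLE A 0 ↔ A = ∅ := by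
  constructor
  · rintro ⟨f, _, _, h3⟩
    rw [Set.eq_empty_iff_forall_notMem]
    intro x hx
    exact h3 x hx (Subsingleton.elim _ _)
  · rintro rfl
    exact ⟨fun _ => 0, continuousOn_empty _, fun x hx => absurd hx (notMem_empty x),
      fun x hx => absurd hx (notMem_empty x)⟩

theorem genus_empty (k : ℕ) : GenusLE (∅ : Set X) k :=
  ⟨fun _ => 0, continuousOn_empty _, fun x hx => absurd hx (notMem_empty x),
    fun x hx => absurd hx (notMem_empty x)⟩

theorem genus_le_of_le {A : Set X} {k l : ℕ} (h : k ≤ l) (hA : GenusLE A k) : GenusLE A l := by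
  obtain ⟨f, h1, h2, h3⟩ := hA
  have hfr : Module.finrank ℝ (EuclideanSpace ℝ (Fin k) × EuclideanSpace ℝ (Fin (l - k))) =
      Module.finrank ℝ (EuclideanSpace ℝ (Fin l)) := by
    rw [Module.finrank_prod, finrank_euclideanSpace_fin, finrank_euclideanSpace_fin,
      finrank_euclideanSpace_fin]
    omega
  let L := ContinuousLinearEquiv.ofFinrankEq (𝕜 := ℝ) hfr
  refine ⟨fun x => L (f x, 0), ?_, ?_, ?_⟩
  · exact L.continuous.comp_continuousOn (h1.prodMk continuousOn_const)
  · intro x hx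
    change L (f (-x), 0) = -L (f x, 0)
    rw [h2 x hx, ← map_neg]
    congr 1
    rw [Prod.neg_mk, neg_zero]
  · intro x hx h0
    change L (f x, 0) = 0 at h0
    have h4 : (f x, (0 : EuclideanSpace ℝ (Fin (l - k)))) = 0 := by
      apply L.injective
      rw [h0, map_zero]
    exact h3 x hx (Prod.mk.inj h4).1

end Pool.Agent.Helper53.CL.C
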