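import Pool.Agent.Helper53.CL.C.C05
import Pool.Agent.Helper53.CL.C.C07

/-!
# CL-C08: the widths (about 150 lines)

`T = {c | ¬ GenusLE (sub H ε w c) p}` is an upper set (`genus_mono`, `sub_mono`), contained in `[0, ∞)` (`sub = ∅` for `c < 0`,
`genus_empty`).  `genus_of_lt`: `c < width` is not in `T`.  `not_genus_of_gt`: if `T` is not empty and `c > sInf T` then `c ∈ T`.
`not_genus_width`: the sets `sub (width + 1/(n+1))` are compact, symmetric, decreasing with intersection `sub (width)`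
(`sub_inter`); if `GenusLE (sub width) p` then `GenusLE (sub (width + 1/(n+1))) p` for some `n` (`genus_decreasing`),
contradicting `not_genus_of_gt`.
`le_width`: if `GenusLE (sub c) p` then `c ≤ width` (T nonempty).  `width_le_of_not`: if `¬ GenusLE (sub c) p` then `width ≤ c`.
`width_nonneg`, `width_mono` (in `p`, `genus_le_of_le`), `width_le_mul`: monotonicity in the weight from `en_mono`.
-/

namespace Pool.Agent.Helper53.CL.C

open MeasureTheory Filter Topology

variable {Ω : Type*} [MeasurableSpace Ω] {A : Measure Ω} [IsFiniteMeasure A] {H : Submodule ℝ (JetSp A)} {ε : ℝ}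
  {w : Ω → ℝ} {p : ℕ}

omit [IsFiniteMeasure A] in
private theorem c08_up {c c' : ℝ} (h : c ≤ c') (hc : ¬ GenusLE (sub H ε w c) p) :
    ¬ GenusLE (sub H ε w c') p := fun h' => hc (genus_mono (sub_mono h) h')

private theorem c08_nonneg (hε : 0 < ε) (hw : IsWeight w) {c : ℝ} (hc : ¬ GenusLE (sub H ε w c) p) :
    0 ≤ c := by
  by_contra hneg
  apply hc
  have h1 : sub H ε w c = ∅ := by
    rw [Set.eq_empty_iff_forall_notMem]
    rintro u ⟨U, _, _, hU⟩
    have := en_nonneg hε hw U
    linarith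
  rw [h1]
  exact genus_empty p

private theorem c08_bdd (hε : 0 < ε) (hw : IsWeight w) :
    BddBelow {c : ℝ | ¬ GenusLE (sub H ε w c) p} :=
  ⟨0, fun _ hc => c08_nonneg hε hw hc⟩

theorem genus_of_lt (hε : 0 < ε) (hw : IsWeight w) {c : ℝ} (hc : c < width H ε w p) : GenusLE (sub H ε w c) p := by
  by_contra h
  have := csInf_le (c08_bdd (H := H) (p := p) hε hw) h
  unfold width at hc
  linarith

theorem not_genus_of_gt (hL : ∃ c, ¬ GenusLE (sub H ε w c) p) {c : ℝ} (hc : width H ε w p < c) :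
    ¬ GenusLE (sub H ε w c) p := by
  obtain ⟨c', h1, h2⟩ := exists_lt_of_csInf_lt (s := {c : ℝ | ¬ GenusLE (sub H ε w c) p}) hL hc
  exact c08_up h2.le h1

theorem not_genus_width (hH : IsESpace H) (hε : 0 < ε) (hw : IsWeight w) (hL : ∃ c, ¬ GenusLE (sub H ε w c) p) :
    ¬ GenusLE (sub H ε w (width H ε w p)) p := by
  intro hg
  have hpos : ∀ n : ℕ, (0 : ℝ) < 1 / ((n : ℝ) + 1) := fun n => by positivity
  have hinter : (⋂ n : ℕ, sub H ε w (width H ε w p + 1 / ((n : ℝ) + 1))) =
      sub H ε w (width H ε w p) := by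
    apply Set.Subset.antisymm
    · intro u hu
      apply sub_inter hH
      intro c' hc'
      obtain ⟨n, hn⟩ := exists_nat_one_div_lt (sub_pos.2 hc')
      exact sub_mono (by linarith) (Set.mem_iInter.1 hu n)
    · intro u hu
      exact Set.mem_iInter.2 fun n => sub_mono (by have := hpos n; linarith) hu
  obtain ⟨n, hn⟩ := genus_decreasing (A := fun n : ℕ => sub H ε w (width H ε w p + 1 / ((n : ℝ) + 1)))
    (k := p) (fun n => isCompact_sub hH hε hw _) (by
      intro m n hmn
      apply sub_mono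
      have h1 : (m : ℝ) ≤ n := by exact_mod_cast hmn
      have h2 : 1 / ((n : ℝ) + 1) ≤ 1 / ((m : ℝ) + 1) :=
        one_div_le_one_div_of_le (by positivity) (by linarith)
      linarith) (fun n x hx => sub_symm hx) (by rw [hinter]; exact hg)
  exact not_genus_of_gt hL (by have := hpos n; linarith) hn

theorem le_width (hL : ∃ c, ¬ GenusLE (sub H ε w c) p) {c : ℝ} (hc : GenusLE (sub H ε w c) p) :
    c ≤ width H ε w p := by
  refine le_csInf hL fun c' hc' => ?_
  by_contra h
  exact c08_up (not_le.1 h).le hc' hc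

theorem width_le_of_not (hε : 0 < ε) (hw : IsWeight w) {c : ℝ} (hc : ¬ GenusLE (sub H ε w c) p) :
    width H ε w p ≤ c := csInf_le (c08_bdd hε hw) hc

theorem width_nonneg (hε : 0 < ε) (hw : IsWeight w) : 0 ≤ width H ε w p :=
  Real.sInf_nonneg fun _ hc => c08_nonneg hε hw hc

theorem width_mono (hε : 0 < ε) (hw : IsWeight w) {q : ℕ} (hL : ∃ c, ¬ GenusLE (sub H ε w c) q) (h : p ≤ q) :
    width H ε w p ≤ width H ε w q :=
  csInf_le_csInf (c08_bdd hε hw) hL fun _ hc h' => hc (genus_le_of_le h h')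

theorem width_le_mul (hε : 0 < ε) (hw : IsWeight w) {w' : Ω → ℝ} (hw' : IsWeight w')
    (hL : ∃ c, ¬ GenusLE (sub H ε w' c) p) {M : ℝ} (hM : 1 ≤ M) (hle : ∀ x, w x ≤ M * w' x) :
    width H ε w p ≤ M * width H ε w' p := by
  have hM0 : 0 < M := by linarith
  rw [← div_le_iff₀' hM0]
  refine le_csInf hL fun c hc => ?_
  rw [div_le_iff₀' hM0]
  apply width_le_of_not hε hw
  intro h
  apply hc
  refine genus_mono ?_ h
  rintro u ⟨U, h1, h2, h3⟩
  refine ⟨U, h1, h2, (en_mono hε hw hw' hM hle U).trans ?_⟩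
  exact mul_le_mul_of_nonneg_left h3 hM0.le

end Pool.Agent.Helper53.CL.C
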