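import Pool.Agent.Helper53.CL.Iface
import Pool.Agent.Helper53.CL.C.C06
import Pool.Agent.Helper53.CL.C.C08

/-!
# CL-C09: the key lemma for the envelope (about 250 lines)

Notation: `w_t x = exp (t b x)`, `E_t = en ε w_t`, `f t = width H ε w_t p`.
`dini`: let `δ' > 0`... suppose `f (t + s n) < f t - κ (s n)` for a sequence `s n → 0+`.  Then there is a weak solution `U` for `w_t`
with `E_t U = f t` and `(1/ε) ∫ w_t b Wt(U.fst) ≤ -κ`.
Proof.  `K_n = sub H ε w_{t + s n} (f (t + s n))` is compact and `¬ GenusLE K_n p` (`not_genus_width`).  Let `F` be the map of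
`exists_F` for `w_t`.  Claim: there is `u ∈ K_n` with `E_t (F u) ≥ f t`.  Otherwise, `K_n` being compact, nonempty (else genus
`≤ p`) and `E_t ∘ F` continuous, `E_t ∘ F ≤ c' < f t` on `K_n`; `u ↦ (F u).fst` is continuous, odd and maps `K_n` into
`sub H ε w_t c'`, of genus `≤ p` (`genus_of_lt`), so `GenusLE K_n p` (`genus_pull`), a contradiction.
So let `U_n ∈ H`, `E_{t + s n} (U_n) ≤ f (t + s n)`, `E_t (F (U_n.fst)) ≥ f t`.  `|w_{t+s} - w_t| ≤ C s w_{t+s}` for `0 ≤ s ≤ 1`, so
`E_t (U_n) ≤ E_{t + s n}(U_n) + C s n f(t + s n) ≤ f t + C' s n`.  By `lyapunov`, `f t ≤ E_t(F(U_n.fst)) ≤ E_t(U_n) ≤ f t + C' s n`, so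
`palais_smale` applies: along a subsequence `U_n → U`, weak solution, `E_t(U) = f t` (`continuous_en`).
`(E_{t+s n}(U_n) - E_t(U_n)) / s n ≤ (f t - κ s n - f t) / s n = -κ`, and it equals
`(1/ε) ∫ (w_{t + s n} - w_t)/s n * Wt(U_n.fst) → (1/ε) ∫ w_t b Wt(U.fst)`, because `(w_{t+s} - w_t)/s → w_t b` uniformly and
`∫ |Wt(U_n.fst) - Wt(U.fst)| → 0` (`abs_Wt_sub_le`).
`continuous_width`: `e^{-K|s|} w_t ≤ w_{t+s} ≤ e^{K|s|} w_t` and `width_le_mul`: `f (t + s) ≤ e^{K|s|} f t` for all `t, s`.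
-/

namespace Pool.Agent.Helper53.CL.C

open MeasureTheory Filter Topology Iface

variable {Ω : Type*} [MeasurableSpace Ω] {A : Measure Ω} [IsFiniteMeasure A] {H : Submodule ℝ (JetSp A)}

omit [MeasurableSpace Ω] in
private lemma h45_exp_le {b : Ω → ℝ} {K : ℝ} (hK : ∀ x, |b x| ≤ K) (t : ℝ) (x : Ω) :
    Real.exp (-(|t| * |K|)) ≤ Real.exp (t * b x) ∧ Real.exp (t * b x) ≤ Real.exp (|t| * |K|) := by
  have h1 : |t * b x| ≤ |t| * |K| := by
    rw [abs_mul]
    exact mul_le_mul_of_nonneg_left ((hK x).trans (le_abs_self K)) (abs_nonneg _)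
  rw [abs_le] at h1
  exact ⟨Real.exp_le_exp.2 h1.1, Real.exp_le_exp.2 h1.2⟩

theorem isWeight_exp {b : Ω → ℝ} (hb : Measurable b) {K : ℝ} (hK : ∀ x, |b x| ≤ K) (t : ℝ) :
    IsWeight fun x => Real.exp (t * b x) := by
  refine ⟨(hb.const_mul t).exp, Real.exp (-(|t| * |K|)), Real.exp (|t| * |K|), Real.exp_pos _,
    fun x => h45_exp_le hK t x⟩

omit [MeasurableSpace Ω] in
private lemma h45_exp_shift {b : Ω → ℝ} {K : ℝ} (hK : ∀ x, |b x| ≤ K) (t t' : ℝ) (x : Ω) :
    Real.exp (t * b x) ≤ Real.exp (|K| * |t - t'|) * Real.exp (t' * b x) := by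
  rw [← Real.exp_add, Real.exp_le_exp]
  have h1 : (t - t') * b x ≤ |K| * |t - t'| := by
    refine (le_abs_self _).trans ?_
    rw [abs_mul, mul_comm]
    exact mul_le_mul_of_nonneg_right ((hK x).trans (le_abs_self K)) (abs_nonneg _)
  linarith

private lemma h45_width_shift (hL : Large H) {b : Ω → ℝ} (hb : Measurable b) {K : ℝ}
    (hK : ∀ x, |b x| ≤ K) {ε : ℝ} (hε : 0 < ε) (p : ℕ) (t t' : ℝ) :
    width H ε (fun x => Real.exp (t * b x)) p ≤
      Real.exp (|K| * |t - t'|) * width H ε (fun x => Real.exp (t' * b x)) p := by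
  refine width_le_mul hε (isWeight_exp hb hK t) (isWeight_exp hb hK t')
    (hL ε hε _ (isWeight_exp hb hK t') p) ?_ (fun x => h45_exp_shift hK t t' x)
  exact Real.one_le_exp (by positivity)

theorem continuous_width (hL : Large H) {b : Ω → ℝ} (hb : Measurable b) {K : ℝ} (hK : ∀ x, |b x| ≤ K) {ε : ℝ}
    (hε : 0 < ε) (p : ℕ) : Continuous fun t => width H ε (fun x => Real.exp (t * b x)) p := by
  rw [continuous_iff_continuousAt]
  intro t
  obtain ⟨f, hf⟩ : ∃ f : ℝ → ℝ, f = fun t => width H ε (fun x => Real.exp (t * b x)) p := ⟨_, rfl⟩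
  rw [← hf]
  have h1 : ∀ t', f t' ≤ Real.exp (|K| * |t' - t|) * f t := fun t' => by
    rw [hf]
    exact h45_width_shift hL hb hK hε p t' t
  have h2 : ∀ t', Real.exp (-(|K| * |t' - t|)) * f t ≤ f t' := fun t' => by
    have h3 : f t ≤ Real.exp (|K| * |t' - t|) * f t' := by
      rw [hf, abs_sub_comm]
      exact h45_width_shift hL hb hK hε p t t'
    calc Real.exp (-(|K| * |t' - t|)) * f t ≤
        Real.exp (-(|K| * |t' - t|)) * (Real.exp (|K| * |t' - t|) * f t') :=
          mul_le_mul_of_nonneg_left h3 (Real.exp_pos _).le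
      _ = f t' := by
          rw [← mul_assoc, ← Real.exp_add]
          simp
  have c0 : Tendsto (fun t' : ℝ => |K| * |t' - t|) (𝓝 t) (𝓝 0) := by
    have : Continuous (fun t' : ℝ => |K| * |t' - t|) := by fun_prop
    have h := this.tendsto t
    simpa using h
  have c1 : Tendsto (fun t' : ℝ => Real.exp (|K| * |t' - t|) * f t) (𝓝 t) (𝓝 (f t)) := by
    have h := ((Real.continuous_exp.tendsto 0).comp c0).mul_const (f t)
    simpa using h
  have c2 : Tendsto (fun t' : ℝ => Real.exp (-(|K| * |t' - t|)) * f t) (𝓝 t) (𝓝 (f t)) := by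
    have c0' : Tendsto (fun t' : ℝ => -(|K| * |t' - t|)) (𝓝 t) (𝓝 0) := by
      have := c0.neg
      simpa using this
    have h := ((Real.continuous_exp.tendsto 0).comp c0').mul_const (f t)
    simpa using h
  exact tendsto_of_tendsto_of_tendsto_of_le_of_le c2 c1 h2 h1

theorem dini (hH : IsESpace H) (hL : Large H) {b : Ω → ℝ} (hb : Measurable b) {K : ℝ} (hK : ∀ x, |b x| ≤ K) {ε : ℝ}
    (hε : 0 < ε) (p : ℕ) {t κ : ℝ} {s : ℕ → ℝ} (hs : ∀ n, 0 < s n) (hs0 : Tendsto s atTop (𝓝 0))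
    (h : ∀ n, width H ε (fun x => Real.exp ((t + s n) * b x)) p < width H ε (fun x => Real.exp (t * b x)) p - κ * s n) :
    ∃ U, IsWeak H ε (fun x => Real.exp (t * b x)) U ∧
      en ε (fun x => Real.exp (t * b x)) U = width H ε (fun x => Real.exp (t * b x)) p ∧
      1 / ε * ∫ x, Real.exp (t * b x) * b x * Wt (U.fst x) ∂A ≤ -κ := by
  obtain ⟨w, hwdef⟩ : ∃ w : ℝ → Ω → ℝ, w = fun t x => Real.exp (t * b x) := ⟨_, rfl⟩
  have hw : ∀ t, IsWeight (w t) := fun t => by
    rw [hwdef]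
    exact isWeight_exp hb hK t
  have hwt : (fun x => Real.exp (t * b x)) = w t := by rw [hwdef]
  have hwn : ∀ n, (fun x => Real.exp ((t + s n) * b x)) = w (t + s n) := fun n => by rw [hwdef]
  simp only [hwn] at h
  rw [hwt] at h ⊢
  obtain ⟨f, hf⟩ : ∃ f : ℝ → ℝ, f = fun t => width H ε (w t) p := ⟨_, rfl⟩
  have hfc : Continuous f := by
    rw [hf, hwdef]
    exact continuous_width hL hb hK hε p
  have hfn : ∀ n, width H ε (w (t + s n)) p = f (t + s n) := fun n => by rw [hf]
  have hft : width H ε (w t) p = f t := by rw [hf]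
  simp only [hfn] at h
  rw [hft] at h ⊢
  obtain ⟨F, hF, ⟨KF, hlip⟩, hodd⟩ := exists_F hH hε (hw t)
  have hFc : Continuous F := hlip.continuous
  have henc : Continuous (en (A := A) ε (w t)) := continuous_en (hw t)
  have hfirst : Continuous (fun U : JetSp A => U.fst) := WithLp.continuous_fst _ _ _
  -- the claim
  have claim : ∀ n, ∃ u ∈ sub H ε (w (t + s n)) (f (t + s n)), f t ≤ en ε (w t) (F u) := by
    intro n
    by_contra hcon
    push Not at hcon
    have hng : ¬ GenusLE (sub H ε (w (t + s n)) (f (t + s n))) p := by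
      rw [← hfn]
      exact not_genus_width hH hε (hw _) (hL ε hε _ (hw _) p)
    have hne : (sub H ε (w (t + s n)) (f (t + s n))).Nonempty := by
      rw [Set.nonempty_iff_ne_empty]
      intro hemp
      rw [hemp] at hng
      exact hng (genus_empty p)
    obtain ⟨u₀, hu₀, hmax⟩ := (isCompact_sub hH hε (hw (t + s n)) (f (t + s n))).exists_isMaxOn hne
      (henc.comp hFc).continuousOn
    have hlt := hcon u₀ hu₀
    rw [← hft] at hlt
    have hg := genus_of_lt hε (hw t) hlt
    refine hng (genus_pull (g := fun u => (F u).fst) (hfirst.comp hFc).continuousOn ?_ ?_ hg)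
    · intro u _
      rw [hodd]
      rfl
    · intro u hu
      exact ⟨F u, (hF u).1, rfl, hmax hu⟩
  choose u hu hfu using claim
  choose U hUH hUu hUc using hu
  -- the energies
  have hshift : ∀ n, en ε (w t) (U n) ≤ Real.exp (|K| * |s n|) * f (t + s n) := by
    intro n
    have h1 := en_mono (A := A) hε (hw t) (hw (t + s n)) (M := Real.exp (|K| * |s n|))
      (Real.one_le_exp (by positivity)) (fun x => by
        rw [hwdef]
        have := h45_exp_shift hK t (t + s n) x
        have e1 : t - (t + s n) = -s n := by ring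
        rw [e1, abs_neg] at this
        exact this) (U n)
    exact h1.trans (mul_le_mul_of_nonneg_left (hUc n) (Real.exp_pos _).le)
  have hlim1 : Tendsto (fun n => Real.exp (|K| * |s n|) * f (t + s n)) atTop (𝓝 (f t)) := by
    have a1 : Tendsto (fun n => |K| * |s n|) atTop (𝓝 0) := by
      have := (hs0.abs).const_mul |K|
      simpa using this
    have a2 : Tendsto (fun n => t + s n) atTop (𝓝 t) := by
      have := hs0.const_add t
      simpa using this
    have a3 := ((Real.continuous_exp.tendsto 0).comp a1).mul ((hfc.tendsto t).comp a2)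
    simpa using a3
  have hlow : ∀ n, f t ≤ en ε (w t) (U n) := by
    intro n
    have hIF : IsF H ε (w t) (U n).fst (F (u n)) := by
      rw [hUu]
      exact hF (u n)
    have h1 := lyapunov hε (hw t) (hUH n) hIF
    obtain ⟨hwm, c, C, hc, hcC⟩ := hw t
    have h2 : 0 ≤ ∫ x, w t x * (F (u n) - U n).fst x ^ 2 ∂A :=
      integral_nonneg fun x => mul_nonneg (hc.le.trans (hcC x).1) (sq_nonneg _)
    have h3 : 0 ≤ ε / 2 * ‖(F (u n) - U n).snd‖ ^ 2 + 1 / (2 * ε) *
        ∫ x, w t x * (F (u n) - U n).fst x ^ 2 ∂A := by positivity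
    linarith [hfu n]
  have hlow' : ∀ n, en ε (w t) (U n) - en ε (w t) (F (U n).fst) ≤ en ε (w t) (U n) - f t := by
    intro n
    rw [hUu]
    linarith [hfu n]
  have hpos' : ∀ n, 0 ≤ en ε (w t) (U n) - en ε (w t) (F (U n).fst) := by
    intro n
    have h1 := lyapunov hε (hw t) (hUH n) (hF (U n).fst)
    obtain ⟨hwm, c, C, hc, hcC⟩ := hw t
    have h2 : 0 ≤ ∫ x, w t x * (F (U n).fst - U n).fst x ^ 2 ∂A :=
      integral_nonneg fun x => mul_nonneg (hc.le.trans (hcC x).1) (sq_nonneg _)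
    have h3 : 0 ≤ ε / 2 * ‖(F (U n).fst - U n).snd‖ ^ 2 + 1 / (2 * ε) *
        ∫ x, w t x * (F (U n).fst - U n).fst x ^ 2 ∂A := by positivity
    linarith
  have hlim2 : Tendsto (fun n => en ε (w t) (U n)) atTop (𝓝 (f t)) :=
    tendsto_of_tendsto_of_tendsto_of_le_of_le tendsto_const_nhds hlim1 hlow hshift
  have hlim3 : Tendsto (fun n => en ε (w t) (U n) - en ε (w t) (F (U n).fst)) atTop (𝓝 0) := by
    have h1 : Tendsto (fun n => en ε (w t) (U n) - f t) atTop (𝓝 0) := by
      have := hlim2.sub_const (f t)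
      simpa using this
    exact tendsto_of_tendsto_of_tendsto_of_le_of_le tendsto_const_nhds h1 hpos' hlow'
  obtain ⟨c, hc⟩ : ∃ c, ∀ n, en ε (w t) (U n) ≤ c := by
    obtain ⟨c, hc⟩ := hlim2.bddAbove_range
    exact ⟨c, fun n => hc ⟨n, rfl⟩⟩
  obtain ⟨σ, U', hσ, hweak, hU'⟩ := palais_smale hH hε (hw t) hF hFc hUH hc hlim3
  have henU' : en ε (w t) U' = f t := by
    have h1 : Tendsto (fun n => en ε (w t) (U (σ n))) atTop (𝓝 (en ε (w t) U')) :=
      (henc.tendsto U').comp hU'
    exact tendsto_nhds_unique h1 (hlim2.comp hσ.tendsto_atTop)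
  refine ⟨U', hweak, henU', ?_⟩
  -- the derivative
  obtain ⟨q, hq⟩ : ∃ q : ℕ → Ω → ℝ, q = fun n x => (w (t + s n) x - w t x) / s n := ⟨_, rfl⟩
  obtain ⟨M, hM⟩ : ∃ M, M = Real.exp (|t| * |K|) := ⟨_, rfl⟩
  have hM0 : 0 < M := by rw [hM]; exact Real.exp_pos _
  have hwM : ∀ x, 0 ≤ w t x ∧ w t x ≤ M := fun x => by
    rw [hwdef, hM]
    exact ⟨(Real.exp_pos _).le, (h45_exp_le hK t x).2⟩
  have hq0b : ∀ x, |w t x * b x| ≤ M * |K| := fun x => by
    rw [abs_mul, abs_of_nonneg (hwM x).1]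
    exact mul_le_mul (hwM x).2 ((hK x).trans (le_abs_self K)) (abs_nonneg _) hM0.le
  have hwm : Measurable (w t) := (hw t).1
  have hcont0 := continuous_pot (A := A) (hwm.mul hb) hq0b
  have hcont1 := continuous_pot (A := A) (b := fun _ => (1 : ℝ)) measurable_const (K := 1) (by simp)
  have hfst : Tendsto (fun n => (U (σ n)).fst) atTop (𝓝 U'.fst) := (hfirst.tendsto U').comp hU'
  have l0 : Tendsto (fun n => ∫ x, w t x * b x * Wt ((U (σ n)).fst x) ∂A) atTop
      (𝓝 (∫ x, w t x * b x * Wt (U'.fst x) ∂A)) := (hcont0.tendsto _).comp hfst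
  have l1 : Tendsto (fun n => ∫ x, (1 : ℝ) * Wt ((U (σ n)).fst x) ∂A) atTop
      (𝓝 (∫ x, (1 : ℝ) * Wt (U'.fst x) ∂A)) := (hcont1.tendsto _).comp hfst
  have hsσ : Tendsto (fun n => s (σ n)) atTop (𝓝 0) := hs0.comp hσ.tendsto_atTop
  -- the difference quotients
  have hIw : ∀ r (V : JetSp A), Integrable (fun x => w r x * Wt (V.fst x)) A :=
    fun r V => integrable_Wt (hw r) V.fst
  have hIq0 : ∀ V : JetSp A, Integrable (fun x => w t x * b x * Wt (V.fst x)) A :=
    fun V => integrable_bWt (hwm.mul hb) hq0b V.fst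
  have hI1 : ∀ V : JetSp A, Integrable (fun x => (1 : ℝ) * Wt (V.fst x)) A :=
    fun V => integrable_bWt (b := fun _ => (1 : ℝ)) measurable_const (K := 1) (by simp) V.fst
  have hIq : ∀ n (V : JetSp A), Integrable (fun x => q n x * Wt (V.fst x)) A := by
    intro n V
    have h1 := ((hIw (t + s n) V).sub (hIw t V)).div_const (s n)
    refine h1.congr (Filter.Eventually.of_forall fun x => ?_)
    rw [hq]
    simp only [Pi.sub_apply]
    ring
  have hdiff : ∀ n, 1 / ε * ∫ x, q n x * Wt ((U n).fst x) ∂A ≤ -κ := by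
    intro n
    have h1 : ∫ x, q n x * Wt ((U n).fst x) ∂A =
        (∫ x, w (t + s n) x * Wt ((U n).fst x) ∂A - ∫ x, w t x * Wt ((U n).fst x) ∂A) / s n := by
      rw [← integral_sub (hIw _ _) (hIw _ _), ← integral_div]
      refine integral_congr_ae (Filter.Eventually.of_forall fun x => ?_)
      rw [hq]
      simp only
      ring
    have h2 : 1 / ε * ((∫ x, w (t + s n) x * Wt ((U n).fst x) ∂A -
        ∫ x, w t x * Wt ((U n).fst x) ∂A) / s n) =
        (en ε (w (t + s n)) (U n) - en ε (w t) (U n)) / s n := by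
      unfold en
      ring
    rw [h1, h2, div_le_iff₀ (hs n)]
    have h3 := hUc n
    have h4 := hlow n
    have h5 := h n
    linarith
  have herr : ∀ᶠ n in atTop, |∫ x, q (σ n) x * Wt ((U (σ n)).fst x) ∂A -
      ∫ x, w t x * b x * Wt ((U (σ n)).fst x) ∂A| ≤
        M * K ^ 2 * s (σ n) * ∫ x, (1 : ℝ) * Wt ((U (σ n)).fst x) ∂A := by
    have hev : ∀ᶠ n in atTop, |K| * s (σ n) ≤ 1 := by
      have h1 : Tendsto (fun n => |K| * s (σ n)) atTop (𝓝 0) := by
        have := hsσ.const_mul |K|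
        simpa using this
      exact (h1.eventually (eventually_lt_nhds zero_lt_one)).mono fun n hn => hn.le
    filter_upwards [hev] with n hn
    rw [← integral_sub (hIq _ _) (hIq0 _), ← integral_const_mul]
    refine (abs_integral_le_integral_abs).trans (integral_mono ?_ ((hI1 _).const_mul _) fun x => ?_)
    · exact ((hIq (σ n) (U (σ n))).sub (hIq0 (U (σ n)))).abs
    · simp only
      rw [← sub_mul, abs_mul, abs_of_nonneg (Wt_nonneg _), one_mul]
      refine mul_le_mul_of_nonneg_right ?_ (Wt_nonneg _)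
      have hsn := hs (σ n)
      have h1 : q (σ n) x - w t x * b x =
          w t x * ((Real.exp (s (σ n) * b x) - 1 - s (σ n) * b x) / s (σ n)) := by
        rw [hq, hwdef]
        simp only
        rw [add_mul, Real.exp_add]
        field_simp
      rw [h1, abs_mul, abs_of_nonneg (hwM x).1, abs_div, abs_of_pos hsn]
      have h2 : |s (σ n) * b x| ≤ 1 := by
        rw [abs_mul, abs_of_pos hsn, mul_comm]
        exact (mul_le_mul_of_nonneg_right ((hK x).trans (le_abs_self K)) hsn.le).trans hn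
      have h3 := Real.abs_exp_sub_one_sub_id_le h2
      have h4 : (b x) ^ 2 ≤ K ^ 2 := by
        have h5 : |b x| ≤ |K| := (hK x).trans (le_abs_self K)
        exact sq_le_sq.2 h5
      have h5 : |Real.exp (s (σ n) * b x) - 1 - s (σ n) * b x| / s (σ n) ≤ K ^ 2 * s (σ n) := by
        rw [div_le_iff₀ hsn]
        refine h3.trans ?_
        have h6 : (s (σ n) * b x) ^ 2 = s (σ n) ^ 2 * (b x) ^ 2 := by ring
        rw [h6]
        have h7 := mul_le_mul_of_nonneg_left h4 (sq_nonneg (s (σ n)))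
        linarith
      calc w t x * (|Real.exp (s (σ n) * b x) - 1 - s (σ n) * b x| / s (σ n))
          ≤ M * (K ^ 2 * s (σ n)) := mul_le_mul (hwM x).2 h5 (by positivity) hM0.le
        _ = M * K ^ 2 * s (σ n) := by ring
  have hlim4 : Tendsto (fun n => ∫ x, q (σ n) x * Wt ((U (σ n)).fst x) ∂A -
      ∫ x, w t x * b x * Wt ((U (σ n)).fst x) ∂A) atTop (𝓝 0) := by
    rw [tendsto_zero_iff_abs_tendsto_zero]
    have h1 : Tendsto (fun n => M * K ^ 2 * s (σ n) * ∫ x, (1 : ℝ) * Wt ((U (σ n)).fst x) ∂A) atTop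
        (𝓝 0) := by
      have := (hsσ.const_mul (M * K ^ 2)).mul l1
      simpa using this
    exact tendsto_of_tendsto_of_tendsto_of_le_of_le' tendsto_const_nhds h1
      (Filter.Eventually.of_forall fun n => abs_nonneg _) herr
  have hlim5 : Tendsto (fun n => 1 / ε * ∫ x, q (σ n) x * Wt ((U (σ n)).fst x) ∂A) atTop
      (𝓝 (1 / ε * ∫ x, w t x * b x * Wt (U'.fst x) ∂A)) := by
    have h1 := (hlim4.add l0).const_mul (1 / ε)
    simp only [sub_add_cancel, zero_add] at h1
    exact h1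
  have hfin := le_of_tendsto' hlim5 fun n => hdiff (σ n)
  rw [hwdef] at hfin
  exact hfin

end Pool.Agent.Helper53.CL.C
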