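import Pool.Agent.Helper53.CL.Iface
import Pool.Agent.Helper53.CL.C.C09

/-!
# CL-C10: the envelope lemma, Prop `Env` (about 80 lines)

`f t = width H ε (exp (t b)) p` is continuous.  Suppose `f t₁ < f t₀ - δ (t₁ - t₀)`; then `t₀ < t₁` and there is `η > 0` with
`f t₁ < f t₀ - (δ + η)(t₁ - t₀)`.  Let `t*` be the supremum of `{t ∈ [t₀, t₁] | f t₀ - (δ + η)(t - t₀) ≤ f t}` (closed,
contains `t₀`, not `t₁`): `f t* ≥ f t₀ - (δ + η)(t* - t₀)`, `t* < t₁`, and `f t < f t₀ - (δ + η)(t - t₀) ≤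
f t* - (δ + η)(t - t*)` for `t ∈ (t*, t₁]`.  `dini` with `κ = δ + η`, `s n = (t₁ - t*)/(n + 1)` gives a weak solution at
`t* ∈ [t₀, t₁]` contradicting the hypothesis.
-/

namespace Pool.Agent.Helper53.CL.C

open MeasureTheory Filter Topology

universe u

theorem env : Iface.Env.{u} := by
  intro Ω _ A _ H hH hL b hb hKb ε p t₀ t₁ δ hε h01 hweak
  obtain ⟨K, hK⟩ := hKb
  by_contra hcon
  have hcont := continuous_width (p := p) hL hb hK hε
  set f : ℝ → ℝ := fun t => width H ε (fun x => Real.exp (t * b x)) p with hf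
  have hlt : f t₁ < f t₀ - δ * (t₁ - t₀) := not_le.1 hcon
  have h01' : t₀ < t₁ := by
    rcases h01.lt_or_eq with h | h
    · exact h
    · exfalso
      rw [h, sub_self, mul_zero, sub_zero] at hlt
      exact lt_irrefl _ hlt
  have hD : 0 < t₁ - t₀ := sub_pos.2 h01'
  set η : ℝ := (f t₀ - δ * (t₁ - t₀) - f t₁) / (2 * (t₁ - t₀)) with hη
  have hηpos : 0 < η := div_pos (by linarith) (by linarith)
  have hηmul : η * (t₁ - t₀) = (f t₀ - δ * (t₁ - t₀) - f t₁) / 2 := by
    rw [hη]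
    field_simp
  have hgt : f t₁ + (δ + η) * (t₁ - t₀) < f t₀ := by
    have : (δ + η) * (t₁ - t₀) = δ * (t₁ - t₀) + η * (t₁ - t₀) := by ring
    rw [this, hηmul]
    linarith
  set T : Set ℝ := {t | t ∈ Set.Icc t₀ t₁ ∧ f t₀ ≤ f t + (δ + η) * (t - t₀)} with hT
  have hTc : IsCompact T := by
    have hcl : IsClosed {t : ℝ | f t₀ ≤ f t + (δ + η) * (t - t₀)} :=
      isClosed_le continuous_const (hcont.add (continuous_const.mul (continuous_id.sub continuous_const)))
    exact isCompact_Icc.inter_right hcl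
  have hTne : T.Nonempty := ⟨t₀, ⟨le_rfl, h01⟩, by simp⟩
  obtain ⟨ts, htsT, htsmax⟩ := hTc.exists_isMaxOn hTne continuousOn_id
  have hts1 : ts < t₁ := by
    rcases htsT.1.2.lt_or_eq with h | h
    · exact h
    · exfalso
      have h2 := htsT.2
      rw [h] at h2
      linarith
  have hdrop : ∀ t, ts < t → t ≤ t₁ → f t < f ts - (δ + η) * (t - ts) := by
    intro t h1 h2
    by_contra h3
    have h4 : t ∈ T := by
      refine ⟨⟨htsT.1.1.trans h1.le, h2⟩, ?_⟩
      have h5 := htsT.2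
      have h6 := not_lt.1 h3
      have : (δ + η) * (t - t₀) = (δ + η) * (t - ts) + (δ + η) * (ts - t₀) := by ring
      rw [this]
      linarith
    have h5 : t ≤ ts := htsmax h4
    linarith
  have hd : 0 < t₁ - ts := sub_pos.2 hts1
  have hone : ∀ n : ℕ, (1 : ℝ) / ((n : ℝ) + 1) ≤ 1 := by
    intro n
    rw [div_le_one (by positivity)]
    have : (0 : ℝ) ≤ n := Nat.cast_nonneg n
    linarith
  obtain ⟨U, hU1, hU2, hU3⟩ := dini (s := fun n : ℕ => (t₁ - ts) * (1 / ((n : ℝ) + 1))) (t := ts)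
    (κ := δ + η) hH hL hb hK hε p (fun n => mul_pos hd (by positivity))
    (by simpa using (tendsto_one_div_add_atTop_nhds_zero_nat (𝕜 := ℝ)).const_mul (t₁ - ts))
    (fun n => by
      have h1 : 0 < (t₁ - ts) * (1 / ((n : ℝ) + 1)) := mul_pos hd (by positivity)
      have h2 : (t₁ - ts) * (1 / ((n : ℝ) + 1)) ≤ (t₁ - ts) * 1 :=
        mul_le_mul_of_nonneg_left (hone n) hd.le
      have h3 := hdrop (ts + (t₁ - ts) * (1 / ((n : ℝ) + 1))) (by linarith) (by linarith)
      rw [add_sub_cancel_left] at h3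
      exact h3)
  have h7 := hweak ts htsT.1 U hU1 hU2
  linarith

end Pool.Agent.Helper53.CL.C
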